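import Pool.Agent.Helper38.Thick.Assem

/-!
# Choice of the frame
-/

set_option autoImplicit false
set_option linter.unusedSectionVars false

namespace Pool.Agent.Helper38.Thick

open Pool.Agent.Helper28.BPack Pool.Agent.Helper61.Motz

variable {L : Type} [Lattice L] [BoundedOrder L] [Finite L] [IsUpperModularLattice L]

/-- A point in two planes over a line is on the line. -/
theorem inter_line {P Q l x : L} (hP : rk P = 3) (hQ : rk Q = 3) (hl : rk l = 2) (hx : IsAtom x)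
    (hlP : l ≤ P) (hlQ : l ≤ Q) (hxP : x ≤ P) (hxQ : x ≤ Q) (h : P ≠ Q) : x ≤ l := by
  by_contra hxl
  have h1 := rk_sup_atom hx hxl
  have e1 : l ⊔ x = P := eq_of_le_of_rk (sup_le hlP hxP) (by omega)
  have e2 : l ⊔ x = Q := eq_of_le_of_rk (sup_le hlQ hxQ) (by omega)
  exact h (e1.symm.trans e2)

theorem exch {x c r : L} (hx : IsAtom x) (hc : IsAtom c) (hr : IsAtom r) (hxc : x ≠ c)
    (hcr : c ≠ r) (h : x ≤ c ⊔ r) : r ≤ x ⊔ c := by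
  have h1 : x ⊔ c = c ⊔ r := line_of hx hc hxc h le_sup_left (rk_line hc hr hcr)
  rw [h1]
  exact le_sup_right

/-- Every line with a point outside is short. -/
def Core (A : Finset L) : Prop :=
  ∀ p ∈ A, ∀ a ∈ A, ∀ b ∈ A, a ≠ b → ¬ p ≤ a ⊔ b →
    ∃ z ∈ A, z ≤ p ⊔ a ⊔ b ∧ z ≠ p ∧ ¬ z ≤ a ⊔ b

theorem exists_not_le {A : Finset L} (hrA : rk (A.sup id) = 4) {p : L} (hp : rk p ≤ 3) :
    ∃ a ∈ A, ¬ a ≤ p := by
  by_contra hcon
  push Not at hcon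
  have h1 : A.sup id ≤ p := Finset.sup_le hcon
  have h2 := rk_mono h1
  omega

theorem frame_exists [DecidableRel (α := L) (· ≤ ·)] {A : Finset L} (hA : ∀ a ∈ A, IsAtom a)
    (hrA : rk (A.sup id) = 4) (hcore : Core A) :
    ∃ u b1 b2 r1 r2 : L, ∃ r : L → L, rk u = 2 ∧ b1 ∈ A ∧ b2 ∈ A ∧ b1 ≠ b2 ∧ b1 ⊔ b2 = u ∧
      r1 ∈ A ∧ r2 ∈ A ∧ rk (u ⊔ r1 ⊔ r2) = 4 ∧
      (∀ k, rk k = 2 → (A.filter (· ≤ k)).card ≤ (A.filter (· ≤ u)).card) ∧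
      (∀ x ∈ A, ¬ x ≤ u → r x ∈ A ∧ ¬ r x ≤ u ∧ r x ≤ x ⊔ u) ∧
      (∀ x ∈ A, ¬ x ≤ u → ∀ y ∈ A, ¬ y ≤ u → y ≤ x ⊔ u → r x = r y) ∧
      r r1 = r1 ∧ r r2 = r2 ∧ (∀ x ∈ A, x ≤ r1 ⊔ r2 → r x = x) ∧
      (∀ c ∈ A, c ≤ u → ∀ x ∈ A, ¬ x ≤ u → ¬ r x ≤ x ⊔ c → x ≤ c ⊔ (r1 ⊔ r2) →
        ∃ y ∈ A, ¬ y ≤ x ⊔ u ∧ ¬ y ≤ c ⊔ (r1 ⊔ r2)) := by
  classical
  have : Fintype L := Fintype.ofFinite L
  -- the line
  obtain ⟨a0, ha0, -⟩ := exists_not_le hrA (p := ⊥) (by rw [rk_bot]; omega)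
  obtain ⟨a1, ha1, h10⟩ := exists_not_le hrA (p := a0) (by rw [rk_atom (hA a0 ha0)]; omega)
  have h01 : a0 ≠ a1 := fun h => h10 h.symm.le
  obtain ⟨u, hu', humax⟩ := Finset.exists_max_image (Finset.univ.filter (fun k : L => rk k = 2))
    (fun k => (A.filter (· ≤ k)).card)
    ⟨a0 ⊔ a1, by simp [rk_line (hA a0 ha0) (hA a1 ha1) h01]⟩
  have hu : rk u = 2 := (Finset.mem_filter.mp hu').2
  have hmax : ∀ k, rk k = 2 → (A.filter (· ≤ k)).card ≤ (A.filter (· ≤ u)).card := fun k hk =>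
    humax k (by simp [hk])
  have hcard : 1 < (A.filter (· ≤ u)).card := by
    have h1 := hmax (a0 ⊔ a1) (rk_line (hA a0 ha0) (hA a1 ha1) h01)
    have h2 : ({a0, a1} : Finset L) ⊆ A.filter (· ≤ a0 ⊔ a1) := by
      intro z hz
      rw [Finset.mem_insert, Finset.mem_singleton] at hz
      rw [Finset.mem_filter]
      rcases hz with rfl | rfl
      · exact ⟨ha0, le_sup_left⟩
      · exact ⟨ha1, le_sup_right⟩
    have h3 := Finset.card_le_card h2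
    rw [Finset.card_pair h01] at h3
    omega
  obtain ⟨b1, hb1', b2, hb2', hb12⟩ := Finset.one_lt_card.mp hcard
  obtain ⟨hb1, hbu1⟩ := Finset.mem_filter.mp hb1'
  obtain ⟨hb2, hbu2⟩ := Finset.mem_filter.mp hb2'
  have hbu : b1 ⊔ b2 = u := line_of (hA b1 hb1) (hA b2 hb2) hb12 hbu1 hbu2 hu
  obtain ⟨r1, hr1, hr1u⟩ := exists_not_le hrA (p := u) (by omega)
  have hur1 : rk (u ⊔ r1) = 3 := by rw [rk_sup_atom (hA r1 hr1) hr1u, hu]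
  -- degenerate planes
  set Deg : L → L → Prop := fun s c => ∀ y ∈ A, y ≤ u ⊔ s → y ≤ u ∨ y ≤ c ⊔ s with hDeg
  have hch : ∃ r2 ∈ A, ¬ r2 ≤ u ⊔ r1 ∧ ∀ c ∈ A, c ≤ u → Deg r1 c → Deg r2 c →
      ∀ s ∈ A, ¬ s ≤ u ⊔ r1 → Deg s c := by
    by_cases hex : ∃ c ∈ A, c ≤ u ∧ Deg r1 c ∧ ∃ s ∈ A, ¬ s ≤ u ⊔ r1 ∧ ¬ Deg s c
    · obtain ⟨c1, hc1, hcu1, hd1, s, hs, hsu, hds⟩ := hex
      refine ⟨s, hs, hsu, ?_⟩
      intro c hc hcu hd1' hd2'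
      exfalso
      by_cases hcc : c = c1
      · exact hds (hcc ▸ hd2')
      · -- two colours: the plane is a near pencil
        obtain ⟨z, hz, hzp, hzr, hzu⟩ := hcore r1 hr1 b1 hb1 b2 hb2 hb12 (by rw [hbu]; exact hr1u)
        have hzp' : z ≤ u ⊔ r1 := by rwa [sup_assoc, hbu, sup_comm] at hzp
        rw [hbu] at hzu
        have h1 := (hd1 z hz hzp').resolve_left hzu
        have h2 := (hd1' z hz hzp').resolve_left hzu
        have hne : ∀ e, e ∈ A → e ≤ u → e ≠ r1 := fun e _ he h => hr1u (h ▸ he)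
        have e1 : z ⊔ r1 = c1 ⊔ r1 := line_of (hA z hz) (hA r1 hr1) hzr h1 le_sup_right
          (rk_line (hA c1 hc1) (hA r1 hr1) (hne c1 hc1 hcu1))
        have e2 : z ⊔ r1 = c ⊔ r1 := line_of (hA z hz) (hA r1 hr1) hzr h2 le_sup_right
          (rk_line (hA c hc) (hA r1 hr1) (hne c hc hcu))
        have e3 : c ≤ c1 ⊔ r1 := by rw [← e1, e2]; exact le_sup_left
        have e4 : c ⊔ c1 = c1 ⊔ r1 := line_of (hA c hc) (hA c1 hc1) hcc e3 le_sup_left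
          (rk_line (hA c1 hc1) (hA r1 hr1) (hne c1 hc1 hcu1))
        exact hr1u ((e4 ▸ le_sup_right : r1 ≤ c ⊔ c1).trans (sup_le hcu hcu1))
    · push Not at hex
      obtain ⟨s, hs, hsu⟩ := exists_not_le hrA (p := u ⊔ r1) (by omega)
      exact ⟨s, hs, hsu, fun c hc hcu hd _ s' hs' hsu' => hex c hc hcu hd s' hs' hsu'⟩
  obtain ⟨r2, hr2, hr2u', hdeg⟩ := hch
  have h4 : rk (u ⊔ r1 ⊔ r2) = 4 := by rw [rk_sup_atom (hA r2 hr2) hr2u', hur1]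
  have hr2u : ¬ r2 ≤ u := fun h => hr2u' (h.trans le_sup_left)
  have hr1u' : ¬ r1 ≤ u ⊔ r2 := by
    intro h
    have h1 := rk_sup_atom_le (x := u) (hA r2 hr2)
    have h2 : u ⊔ r1 ⊔ r2 = u ⊔ r2 := by
      apply le_antisymm
      · exact sup_le (sup_le le_sup_left h) le_sup_right
      · exact sup_le (le_sup_left.trans le_sup_left) le_sup_right
    rw [h2] at h4
    omega
  have hr12 : r1 ≠ r2 := fun h => hr1u' (h ▸ le_sup_right)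
  have hvrk : rk (r1 ⊔ r2) = 2 := rk_line (hA r1 hr1) (hA r2 hr2) hr12
  set v := r1 ⊔ r2 with hv
  have huv : ∀ p, rk p = 3 → u ≤ p → r1 ≤ p → r2 ≤ p → False := by
    intro p hp h1 h2 h3
    have h5 := rk_mono (sup_le (sup_le h1 h2) h3 : u ⊔ r1 ⊔ r2 ≤ p)
    omega
  have uv : ∀ a ∈ A, a ≤ u → ¬ a ≤ v := by
    intro a ha hau hav
    have hne : a ≠ r1 := fun h => hr1u (h ▸ hau)
    have e2 : a ⊔ r1 = v := line_of (hA a ha) (hA r1 hr1) hne hav le_sup_left hvrk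
    exact hr2u' ((le_sup_right : r2 ≤ v).trans
      (e2.symm.le.trans (sup_le (hau.trans le_sup_left) le_sup_right)))
  have rkP : ∀ q ∈ A, ¬ q ≤ u → rk (q ⊔ u) = 3 := fun q hq hqu => by
    rw [sup_comm, rk_sup_atom (hA q hq) hqu, hu]
  -- representatives
  set ρ : L → L := fun P => if h : ∃ a ∈ A, a ≤ P ∧ ¬ a ≤ u ∧ a ≤ v then h.choose
    else if h' : ∃ a ∈ A, a ≤ P ∧ ¬ a ≤ u then h'.choose else r1 with hρ
  have hρ1 : ∀ P, (∃ a ∈ A, a ≤ P ∧ ¬ a ≤ u) → ρ P ∈ A ∧ ρ P ≤ P ∧ ¬ ρ P ≤ u := by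
    intro P hP
    by_cases h : ∃ a ∈ A, a ≤ P ∧ ¬ a ≤ u ∧ a ≤ v
    · have e : ρ P = h.choose := by simp only [hρ]; exact dif_pos h
      rw [e]
      exact ⟨h.choose_spec.1, h.choose_spec.2.1, h.choose_spec.2.2.1⟩
    · have e : ρ P = hP.choose := by simp only [hρ]; rw [dif_neg h, dif_pos hP]
      rw [e]
      exact ⟨hP.choose_spec.1, hP.choose_spec.2.1, hP.choose_spec.2.2⟩
  have hρ2 : ∀ P, (∃ a ∈ A, a ≤ P ∧ ¬ a ≤ u ∧ a ≤ v) → ρ P ≤ v := by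
    intro P h
    have e : ρ P = h.choose := by simp only [hρ]; exact dif_pos h
    rw [e]
    exact h.choose_spec.2.2.2
  have hr : ∀ x ∈ A, ¬ x ≤ u → ρ (x ⊔ u) ∈ A ∧ ¬ ρ (x ⊔ u) ≤ u ∧ ρ (x ⊔ u) ≤ x ⊔ u := by
    intro x hx hxu
    have h1 := hρ1 (x ⊔ u) ⟨x, hx, le_sup_left, hxu⟩
    exact ⟨h1.1, h1.2.2, h1.2.1⟩
  have hrr : ∀ x ∈ A, ¬ x ≤ u → ∀ y ∈ A, ¬ y ≤ u → y ≤ x ⊔ u → ρ (x ⊔ u) = ρ (y ⊔ u) := by
    intro x hx hxu y hy hyu hyx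
    have h1 : y ⊔ u = x ⊔ u := eq_of_le_of_rk (sup_le hyx le_sup_right)
      (by rw [rkP x hx hxu, rkP y hy hyu])
    rw [h1]
  have hrv : ∀ x ∈ A, x ≤ v → ρ (x ⊔ u) = x := by
    intro x hx hxv
    have hxu : ¬ x ≤ u := fun h => uv x hx h hxv
    have h1 := hρ1 (x ⊔ u) ⟨x, hx, le_sup_left, hxu⟩
    have h2 := hρ2 (x ⊔ u) ⟨x, hx, le_sup_left, hxu, hxv⟩
    by_contra hne
    have e : ρ (x ⊔ u) ⊔ x = v := line_of (hA _ h1.1) (hA x hx) hne h2 hxv hvrk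
    have e2 : v ≤ x ⊔ u := e ▸ sup_le h1.2.1 le_sup_left
    exact huv _ (rkP x hx hxu) le_sup_right (le_sup_left.trans e2) (le_sup_right.trans e2)
  refine ⟨u, b1, b2, r1, r2, fun q => ρ (q ⊔ u), hu, hb1, hb2, hb12, hbu, hr1, hr2, h4, hmax,
    hr, hrr, hrv r1 hr1 le_sup_left, hrv r2 hr2 le_sup_right, hrv, ?_⟩
  -- the last statement
  intro c hc hcu x hx hxu hrx hxcv
  by_contra hcon
  push Not at hcon
  have hcv : ¬ c ≤ v := uv c hc hcu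
  have rkcv : rk (c ⊔ v) = 3 := by rw [sup_comm, rk_sup_atom (hA c hc) hcv, hvrk]
  have hxc : x ≠ c := fun h => hxu (h ▸ hcu)
  have key : ∀ s ∈ A, ¬ s ≤ u → s ≤ v → ρ (s ⊔ u) = s → u ⊔ s ≠ c ⊔ v → ¬ s ≤ x ⊔ u := by
    intro s hs hsu hsv hss hne hsx
    have h1 : x ≤ u ⊔ s := by
      have e : s ⊔ u = x ⊔ u := eq_of_le_of_rk (sup_le hsx le_sup_right)
        (by rw [rkP x hx hxu, rkP s hs hsu])
      rw [sup_comm u s, e]
      exact le_sup_left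
    have hcs : c ≠ s := fun h => hsu (h ▸ hcu)
    have h2 : x ≤ c ⊔ s := inter_line (P := u ⊔ s) (Q := c ⊔ v)
      (by rw [sup_comm]; exact rkP s hs hsu) rkcv (rk_line (hA c hc) (hA s hs) hcs) (hA x hx)
      (sup_le_sup_right hcu s) (sup_le_sup_left hsv c) h1 hxcv hne
    have h3 : s ≤ x ⊔ c := exch (hA x hx) (hA c hc) (hA s hs) hxc hcs h2
    have h4 : ρ (x ⊔ u) = s := (hrr x hx hxu s hs hsu hsx).trans hss
    exact hrx (by change ρ (x ⊔ u) ≤ x ⊔ c; rw [h4]; exact h3)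
  have n1 : u ⊔ r1 ≠ c ⊔ v := fun h => hr2u' (by
    rw [h]
    exact (le_sup_right : r2 ≤ v).trans le_sup_right)
  have n2 : u ⊔ r2 ≠ c ⊔ v := fun h => hr1u' (by
    rw [h]
    exact (le_sup_left : r1 ≤ v).trans le_sup_right)
  have k1 := key r1 hr1 hr1u le_sup_left (hrv r1 hr1 le_sup_left) n1
  have k2 := key r2 hr2 hr2u le_sup_right (hrv r2 hr2 le_sup_right) n2
  have hD : ∀ s ∈ A, ¬ s ≤ u → s ≤ v → u ⊔ s ≠ c ⊔ v → ¬ s ≤ x ⊔ u → Deg s c := by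
    intro s hs hsu hsv hne hsx y hy hyp
    have hcs : c ≠ s := fun h => hsu (h ▸ hcu)
    have rkus : rk (u ⊔ s) = 3 := by rw [sup_comm]; exact rkP s hs hsu
    by_cases hyx : y ≤ x ⊔ u
    · left
      exact inter_line (P := x ⊔ u) (Q := u ⊔ s) (rkP x hx hxu) rkus hu (hA y hy) le_sup_right
        le_sup_left hyx hyp (fun h => hsx (h ▸ le_sup_right))
    · right
      exact inter_line (P := u ⊔ s) (Q := c ⊔ v) rkus rkcv (rk_line (hA c hc) (hA s hs) hcs)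
        (hA y hy) (sup_le_sup_right hcu s) (sup_le_sup_left hsv c) hyp (hcon y hy hyx) hne
  have d1 := hD r1 hr1 hr1u le_sup_left n1 k1
  have d2 := hD r2 hr2 hr2u le_sup_right n2 k2
  have hrx1 := hr x hx hxu
  have h5 : ¬ ρ (x ⊔ u) ≤ u ⊔ r1 := by
    intro h
    have e1 : ρ (x ⊔ u) ⊔ u = x ⊔ u := eq_of_le_of_rk (sup_le hrx1.2.2 le_sup_right)
      (by rw [rkP x hx hxu, rkP _ hrx1.1 hrx1.2.1])
    have e2 : ρ (x ⊔ u) ⊔ u = u ⊔ r1 := eq_of_le_of_rk (sup_le h le_sup_left)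
      (by rw [hur1, rkP _ hrx1.1 hrx1.2.1])
    exact k1 (by rw [← e1, e2]; exact le_sup_right)
  have d3 := hdeg c hc hcu d1 d2 _ hrx1.1 h5
  have h6 : x ≤ u ⊔ ρ (x ⊔ u) := by
    have e1 : ρ (x ⊔ u) ⊔ u = x ⊔ u := eq_of_le_of_rk (sup_le hrx1.2.2 le_sup_right)
      (by rw [rkP x hx hxu, rkP _ hrx1.1 hrx1.2.1])
    rw [sup_comm, e1]
    exact le_sup_left
  have h7 := (d3 x hx h6).resolve_left hxu
  exact hrx (exch (hA x hx) (hA c hc) (hA _ hrx1.1) hxc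
    (fun h => hrx1.2.1 ((le_of_eq h.symm).trans hcu)) h7)

end Pool.Agent.Helper38.Thick
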