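import Pool.Agent.Helper38.Thick.Level1

/-!
# Assembly of the rank four data from the three levels
-/

set_option autoImplicit false
set_option linter.unusedSectionVars false

namespace Pool.Agent.Helper38.Thick

open Pool.Agent.Helper28.BPack Pool.Agent.Helper61.Motz

variable {L : Type} [Lattice L] [BoundedOrder L] [Finite L] [IsUpperModularLattice L]

/-- The basis. -/
def bas (b1 b2 r1 r2 : L) : Fin 4 → L := ![b1, b2, r1, r2]

theorem bas_line (b1 b2 r1 r2 : L) (i j : Fin 4) (hij : i ≠ j) :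
    bas b1 b2 r1 r2 i ⊔ bas b1 b2 r1 r2 j = b1 ⊔ b2 ∨
    bas b1 b2 r1 r2 i ⊔ bas b1 b2 r1 r2 j = r1 ⊔ r2 ∨
    ∃ b r, (b = b1 ∨ b = b2) ∧ (r = r1 ∨ r = r2) ∧
      bas b1 b2 r1 r2 i ⊔ bas b1 b2 r1 r2 j = b ⊔ r := by
  fin_cases i <;> fin_cases j
  · exact absurd rfl hij
  · exact Or.inl rfl
  · exact Or.inr (Or.inr ⟨b1, r1, Or.inl rfl, Or.inl rfl, rfl⟩)
  · exact Or.inr (Or.inr ⟨b1, r2, Or.inl rfl, Or.inr rfl, rfl⟩)
  · exact Or.inl (sup_comm _ _)
  · exact absurd rfl hij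
  · exact Or.inr (Or.inr ⟨b2, r1, Or.inr rfl, Or.inl rfl, rfl⟩)
  · exact Or.inr (Or.inr ⟨b2, r2, Or.inr rfl, Or.inr rfl, rfl⟩)
  · exact Or.inr (Or.inr ⟨b1, r1, Or.inl rfl, Or.inl rfl, sup_comm _ _⟩)
  · exact Or.inr (Or.inr ⟨b2, r1, Or.inr rfl, Or.inl rfl, sup_comm _ _⟩)
  · exact absurd rfl hij
  · exact Or.inr (Or.inl rfl)
  · exact Or.inr (Or.inr ⟨b1, r2, Or.inl rfl, Or.inr rfl, sup_comm _ _⟩)
  · exact Or.inr (Or.inr ⟨b2, r2, Or.inr rfl, Or.inr rfl, sup_comm _ _⟩)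
  · exact Or.inr (Or.inl (sup_comm _ _))
  · exact absurd rfl hij

theorem bas_plane (b1 b2 r1 r2 : L) (i j k : Fin 4) (hij : i ≠ j) (hik : i ≠ k) (hjk : j ≠ k) :
    (∃ r, (r = r1 ∨ r = r2) ∧
      bas b1 b2 r1 r2 i ⊔ bas b1 b2 r1 r2 j ⊔ bas b1 b2 r1 r2 k = b1 ⊔ b2 ⊔ r) ∨
    (∃ b, (b = b1 ∨ b = b2) ∧
      bas b1 b2 r1 r2 i ⊔ bas b1 b2 r1 r2 j ⊔ bas b1 b2 r1 r2 k = b ⊔ (r1 ⊔ r2)) := by
  have e1 : ∀ x y z : L, x ⊔ y ⊔ z = y ⊔ x ⊔ z := fun x y z => by rw [sup_comm x y]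
  have e2 : ∀ x y z : L, x ⊔ z ⊔ y = x ⊔ y ⊔ z := fun x y z => sup_right_comm _ _ _
  have e3 : ∀ x y z : L, x ⊔ y ⊔ z = z ⊔ x ⊔ y := fun x y z => by
    rw [sup_comm (x ⊔ y) z, ← sup_assoc]
  have e4 : ∀ x y z : L, x ⊔ y ⊔ z = y ⊔ z ⊔ x := fun x y z => by
    rw [sup_assoc, sup_comm]
  have e5 : ∀ x y z : L, x ⊔ y ⊔ z = z ⊔ y ⊔ x := fun x y z => by
    rw [sup_comm (x ⊔ y) z, sup_comm x y, ← sup_assoc]
  have hb : ∀ b r s : L, b ⊔ r ⊔ s = b ⊔ (r ⊔ s) := fun _ _ _ => sup_assoc _ _ _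
  fin_cases i <;> fin_cases j <;> fin_cases k <;>
    first
    | exact absurd rfl hij
    | exact absurd rfl hik
    | exact absurd rfl hjk
    | exact Or.inl ⟨r1, Or.inl rfl, rfl⟩
    | exact Or.inl ⟨r1, Or.inl rfl, e1 _ _ _⟩
    | exact Or.inl ⟨r1, Or.inl rfl, e2 _ _ _⟩
    | exact Or.inl ⟨r1, Or.inl rfl, e3 _ _ _⟩
    | exact Or.inl ⟨r1, Or.inl rfl, e4 _ _ _⟩
    | exact Or.inl ⟨r1, Or.inl rfl, e5 _ _ _⟩
    | exact Or.inl ⟨r2, Or.inr rfl, rfl⟩
    | exact Or.inl ⟨r2, Or.inr rfl, e1 _ _ _⟩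
    | exact Or.inl ⟨r2, Or.inr rfl, e2 _ _ _⟩
    | exact Or.inl ⟨r2, Or.inr rfl, e3 _ _ _⟩
    | exact Or.inl ⟨r2, Or.inr rfl, e4 _ _ _⟩
    | exact Or.inl ⟨r2, Or.inr rfl, e5 _ _ _⟩
    | exact Or.inr ⟨b1, Or.inl rfl, hb _ _ _⟩
    | exact Or.inr ⟨b1, Or.inl rfl, (e1 _ _ _).trans (hb _ _ _)⟩
    | exact Or.inr ⟨b1, Or.inl rfl, (e2 _ _ _).trans (hb _ _ _)⟩
    | exact Or.inr ⟨b1, Or.inl rfl, (e3 _ _ _).trans (hb _ _ _)⟩
    | exact Or.inr ⟨b1, Or.inl rfl, (e4 _ _ _).trans (hb _ _ _)⟩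
    | exact Or.inr ⟨b1, Or.inl rfl, (e5 _ _ _).trans (hb _ _ _)⟩
    | exact Or.inr ⟨b2, Or.inr rfl, hb _ _ _⟩
    | exact Or.inr ⟨b2, Or.inr rfl, (e1 _ _ _).trans (hb _ _ _)⟩
    | exact Or.inr ⟨b2, Or.inr rfl, (e2 _ _ _).trans (hb _ _ _)⟩
    | exact Or.inr ⟨b2, Or.inr rfl, (e3 _ _ _).trans (hb _ _ _)⟩
    | exact Or.inr ⟨b2, Or.inr rfl, (e4 _ _ _).trans (hb _ _ _)⟩
    | exact Or.inr ⟨b2, Or.inr rfl, (e5 _ _ _).trans (hb _ _ _)⟩

theorem crit4_of_levels {A : Finset L} {u b1 b2 r1 r2 : L} {r cc gg H : L → L}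
    (hA : ∀ a ∈ A, IsAtom a) (hu : rk u = 2)
    (hb1 : b1 ∈ A) (hb2 : b2 ∈ A) (hb12 : b1 ⊔ b2 = u)
    (hr1 : r1 ∈ A) (hr2 : r2 ∈ A) (h4 : rk (u ⊔ r1 ⊔ r2) = 4)
    (hrr : ∀ x ∈ A, ¬ x ≤ u → ∀ y ∈ A, ¬ y ≤ u → y ≤ x ⊔ u → r x = r y)
    (hrr1 : r r1 = r1) (hrr2 : r r2 = r2)
    (hv : ∀ x ∈ A, x ≤ r1 ⊔ r2 → r x = x)
    (hc : ∀ x ∈ A, ¬ x ≤ u → r x ≠ x → cc x ∈ A ∧ cc x ≤ u ∧ ¬ r x ≤ x ⊔ cc x)
    (hcinj : ∀ x ∈ A, ¬ x ≤ u → r x ≠ x → ∀ y ∈ A, ¬ y ≤ u → r y ≠ y →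
      x ⊔ cc x = y ⊔ cc y → x = y)
    (hH : ∀ x ∈ A, ¬ x ≤ u → r x ≠ x → rk (H x) = 3 ∧ x ⊔ cc x ≤ H x ∧ ¬ u ≤ H x ∧
      H x ≠ cc x ⊔ (r1 ⊔ r2))
    (hHinj : ∀ x ∈ A, ¬ x ≤ u → r x ≠ x → ∀ y ∈ A, ¬ y ≤ u → r y ≠ y → cc x = cc y →
      H x = H y → x = y)
    (hg : ∀ x ∈ A, ¬ x ≤ u → r x ≠ x → gg x ∈ A ∧ gg x ≤ H x ∧ ¬ gg x ≤ x ⊔ cc x)
    (hginj : ∀ x ∈ A, ¬ x ≤ u → r x ≠ x → ∀ y ∈ A, ¬ y ≤ u → r y ≠ y →
      x ⊔ gg x = y ⊔ gg y → x = y) : Crit4 A := by
  classical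
  -- basics
  have hbu1 : b1 ≤ u := hb12 ▸ le_sup_left
  have hbu2 : b2 ≤ u := hb12 ▸ le_sup_right
  have hr2u' : ¬ r2 ≤ u ⊔ r1 := by
    intro h
    have h1 := rk_sup_atom_le (x := u) (hA r1 hr1)
    rw [sup_eq_left.mpr h] at h4
    omega
  have hr1u : ¬ r1 ≤ u := by
    intro h
    have h1 := rk_sup_atom_le (x := u) (hA r2 hr2)
    rw [sup_eq_left.mpr h] at h4
    omega
  have hr2u : ¬ r2 ≤ u := fun h => hr2u' (h.trans le_sup_left)
  have hr1u' : ¬ r1 ≤ u ⊔ r2 := by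
    intro h
    have h1 := rk_sup_atom_le (x := u) (hA r2 hr2)
    have h2 : u ⊔ r1 ⊔ r2 = u ⊔ r2 := by
      apply le_antisymm
      · exact sup_le (sup_le le_sup_left h) le_sup_right
      · exact sup_le (le_sup_left.trans le_sup_left) le_sup_right
    rw [h2] at h4
    omega
  have hr12 : r1 ≠ r2 := fun h => hr1u' (h ▸ le_sup_right)
  have hb12' : b1 ≠ b2 := by
    intro h
    rw [h, sup_idem] at hb12
    rw [← hb12, rk_atom (hA b2 hb2)] at hu
    omega
  -- no plane over `u` and `r1 ⊔ r2`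
  have huv : ∀ p, rk p = 3 → u ≤ p → r1 ≤ p → r2 ≤ p → False := by
    intro p hp h1 h2 h3
    have h5 := rk_mono (sup_le (sup_le h1 h2) h3 : u ⊔ r1 ⊔ r2 ≤ p)
    omega
  have hvrk : rk (r1 ⊔ r2) = 2 := rk_line (hA r1 hr1) (hA r2 hr2) hr12
  -- two points of `u`
  have two : ∀ a ∈ A, a ≤ u → ∀ a' ∈ A, a' ≤ u → a ≠ a' → ∀ p, a ≤ p → a' ≤ p → u ≤ p := by
    intro a ha hau a' ha' hau' hne p h1 h2
    rw [← line_of (hA a ha) (hA a' ha') hne hau hau' hu]
    exact sup_le h1 h2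
  -- a line over a point outside `u` is not over `u`
  have nou : ∀ y, ¬ y ≤ u → ∀ l, rk l = 2 → y ≤ l → ¬ u ≤ l := by
    intro y hy l hl hyl hul
    have h1 : u = l := eq_of_le_of_rk hul (by omega)
    exact hy (h1 ▸ hyl)
  have uv : ∀ a ∈ A, a ≤ u → ¬ a ≤ r1 ⊔ r2 := by
    intro a ha hau hav
    have e1 : rk (a ⊔ r1) = 2 := rk_line (hA a ha) (hA r1 hr1) (fun h => hr1u (h ▸ hau))
    have e2 : a ⊔ r1 = r1 ⊔ r2 := line_of (hA a ha) (hA r1 hr1) (fun h => hr1u (h ▸ hau)) hav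
      le_sup_left hvrk
    have e3 : r2 ≤ u ⊔ r1 := (le_sup_right : r2 ≤ r1 ⊔ r2).trans
      (e2 ▸ sup_le (hau.trans le_sup_left) le_sup_right)
    exact hr2u' e3
  -- types
  set c : L → L := fun q => if q ≤ u then r1 else if r q = q then b1 else cc q with hcdef
  set d : L → L := fun q => if q ≤ u then r2 else if r q = q then b2 else gg q with hddef
  have cI : ∀ q, q ≤ u → c q = r1 ∧ d q = r2 := fun q h => by simp [hcdef, hddef, h]
  have cII : ∀ q, ¬ q ≤ u → r q = q → c q = b1 ∧ d q = b2 := fun q h h' => by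
    simp [hcdef, hddef, h, h']
  have cIII : ∀ q, ¬ q ≤ u → r q ≠ q → c q = cc q ∧ d q = gg q := fun q h h' => by
    simp [hcdef, hddef, h, h']
  -- rank of the lines
  have rI : ∀ q ∈ A, q ≤ u → ∀ s ∈ A, ¬ s ≤ u → rk (q ⊔ s) = 2 := fun q hq hqu s hs hsu =>
    rk_line (hA q hq) (hA s hs) (fun h => hsu (h ▸ hqu))
  have rII : ∀ q ∈ A, ¬ q ≤ u → ∀ b ∈ A, b ≤ u → rk (q ⊔ b) = 2 := fun q hq hqu b hb hbu =>
    rk_line (hA q hq) (hA b hb) (fun h => hqu (h ▸ hbu))
  have gne : ∀ x ∈ A, ¬ x ≤ u → r x ≠ x → x ≠ gg x := fun x hx hxu hrx h => by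
    have h1 := (hg x hx hxu hrx).2.2
    rw [← h] at h1
    exact h1 le_sup_left
  have rIII : ∀ x ∈ A, ¬ x ≤ u → r x ≠ x → rk (x ⊔ gg x) = 2 := fun x hx hxu hrx =>
    rk_line (hA x hx) (hA _ (hg x hx hxu hrx).1) (gne x hx hxu hrx)
  have gH : ∀ x ∈ A, ¬ x ≤ u → r x ≠ x → x ⊔ gg x ≤ H x := fun x hx hxu hrx =>
    sup_le (le_sup_left.trans (hH x hx hxu hrx).2.1) (hg x hx hxu hrx).2.1
  -- the plane meets `u` in the colour
  have Hu : ∀ x ∈ A, ¬ x ≤ u → r x ≠ x → ∀ a ∈ A, a ≤ u → a ≤ H x → a = cc x := by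
    intro x hx hxu hrx a ha hau haH
    by_contra hne
    have h1 := hc x hx hxu hrx
    exact (hH x hx hxu hrx).2.2.1 (two a ha hau _ h1.1 h1.2.1 hne _ haH
      (le_sup_right.trans (hH x hx hxu hrx).2.1))
  -- the second line misses `u`
  have gu : ∀ x ∈ A, ¬ x ≤ u → r x ≠ x → ∀ a ∈ A, a ≤ u → ¬ a ≤ x ⊔ gg x := by
    intro x hx hxu hrx a ha hau hal
    have h1 := Hu x hx hxu hrx a ha hau (hal.trans (gH x hx hxu hrx))
    have h2 := hc x hx hxu hrx
    have h3 : x ≠ a := fun h => hxu (h ▸ hau)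
    have h4 : x ⊔ a = x ⊔ gg x := line_of (hA x hx) (hA a ha) h3 le_sup_left hal
      (rIII x hx hxu hrx)
    have h5 := (hg x hx hxu hrx).2.2
    rw [← h1, h4] at h5
    exact h5 le_sup_right
  -- representatives on the first line
  have rep : ∀ x ∈ A, ¬ x ≤ u → r x ≠ x → ∀ y ∈ A, ¬ y ≤ u → r y = y → ¬ y ≤ x ⊔ cc x := by
    intro x hx hxu hrx y hy hyu hry hyl
    have h2 := hc x hx hxu hrx
    have h3 := hrr x hx hxu y hy hyu (hyl.trans (sup_le_sup_left h2.2.1 x))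
    rw [hry] at h3
    exact h2.2.2 (h3.symm ▸ hyl)
  have repP : ∀ x ∈ A, ¬ x ≤ u → r x = x → ∀ y ∈ A, ¬ y ≤ u → r y = y → y ≤ x ⊔ u → x = y := by
    intro x hx hxu hrx y hy hyu hry hyl
    have h3 := hrr x hx hxu y hy hyu hyl
    rwa [hrx, hry] at h3
  have cne : ∀ q, (∀ i, q ≠ bas b1 b2 r1 r2 i) → q ≠ b1 ∧ q ≠ b2 ∧ q ≠ r1 ∧ q ≠ r2 := fun q h =>
    ⟨h 0, h 1, h 2, h 3⟩
  -- a point outside `u` on every line
  refine ⟨bas b1 b2 r1 r2, c, d, ?_, ?_, ?_, ?_, ?_, ?_, ?_, ?_, ?_, ?_⟩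
  · intro i
    fin_cases i
    exacts [hb1, hb2, hr1, hr2]
  · have h1 : (Finset.univ : Finset (Fin 4)) = insert 0 (insert 1 (insert 2 {3})) := by decide
    rw [h1, Finset.sup_insert, Finset.sup_insert, Finset.sup_insert, Finset.sup_singleton]
    change rk (b1 ⊔ (b2 ⊔ (r1 ⊔ r2))) = 4
    rw [← h4, ← hb12, sup_assoc, sup_assoc]
  · -- the planes have rank three
    intro q hq hne
    by_cases hqu : q ≤ u
    · rw [(cI q hqu).1, (cI q hqu).2]
      refine ⟨hr1, hr2, ?_⟩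
      rw [rk_sup_atom (hA r2 hr2) (fun h => hr2u' (h.trans (sup_le_sup_right hqu r1))),
        rI q hq hqu r1 hr1 hr1u]
    · by_cases hrq : r q = q
      · rw [(cII q hqu hrq).1, (cII q hqu hrq).2]
        refine ⟨hb1, hb2, ?_⟩
        rw [sup_assoc, hb12, sup_comm, rk_sup_atom (hA q hq) hqu, hu]
      · rw [(cIII q hqu hrq).1, (cIII q hqu hrq).2]
        have h1 := hc q hq hqu hrq
        have h2 := hg q hq hqu hrq
        refine ⟨h1.1, h2.1, ?_⟩
        rw [rk_sup_atom (hA _ h2.1) h2.2.2, rII q hq hqu _ h1.1 h1.2.1]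
  · -- the first lines
    intro q hq hne q' hq' hne' e
    obtain ⟨n1, n2, n3, n4⟩ := cne q hne
    obtain ⟨m1, m2, m3, m4⟩ := cne q' hne'
    by_cases hqu : q ≤ u
    · rw [(cI q hqu).1] at e
      by_cases hqu' : q' ≤ u
      · rw [(cI q' hqu').1] at e
        by_contra h
        exact nou r1 hr1u _ (rI q hq hqu r1 hr1 hr1u) le_sup_right
          (two q hq hqu q' hq' hqu' h _ le_sup_left (e ▸ le_sup_left))
      · by_cases hrq' : r q' = q'
        · exfalso
          rw [(cII q' hqu' hrq').1] at e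
          exact nou r1 hr1u _ (rI q hq hqu r1 hr1 hr1u) le_sup_right
            (two q hq hqu b1 hb1 hbu1 n1 _ le_sup_left (e ▸ le_sup_right))
        · exfalso
          rw [(cIII q' hqu' hrq').1] at e
          exact rep q' hq' hqu' hrq' r1 hr1 hr1u hrr1 (e ▸ le_sup_right)
    · by_cases hrq : r q = q
      · rw [(cII q hqu hrq).1] at e
        by_cases hqu' : q' ≤ u
        · exfalso
          rw [(cI q' hqu').1] at e
          exact nou r1 hr1u _ (rI q' hq' hqu' r1 hr1 hr1u) le_sup_right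
            (two q' hq' hqu' b1 hb1 hbu1 m1 _ le_sup_left (e ▸ le_sup_right))
        · by_cases hrq' : r q' = q'
          · rw [(cII q' hqu' hrq').1] at e
            exact repP q hq hqu hrq q' hq' hqu' hrq' ((le_sup_left : q' ≤ q' ⊔ b1).trans
              (e ▸ sup_le_sup_left hbu1 q))
          · exfalso
            rw [(cIII q' hqu' hrq').1] at e
            exact rep q' hq' hqu' hrq' q hq hqu hrq (e ▸ le_sup_left)
      · rw [(cIII q hqu hrq).1] at e
        by_cases hqu' : q' ≤ u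
        · exfalso
          rw [(cI q' hqu').1] at e
          exact rep q hq hqu hrq r1 hr1 hr1u hrr1 (e ▸ le_sup_right)
        · by_cases hrq' : r q' = q'
          · exfalso
            rw [(cII q' hqu' hrq').1] at e
            exact rep q hq hqu hrq q' hq' hqu' hrq' (e ▸ le_sup_left)
          · rw [(cIII q' hqu' hrq').1] at e
            exact hcinj q hq hqu hrq q' hq' hqu' hrq' e
  · -- the second lines
    intro q hq hne q' hq' hne' e
    obtain ⟨n1, n2, n3, n4⟩ := cne q hne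
    obtain ⟨m1, m2, m3, m4⟩ := cne q' hne'
    by_cases hqu : q ≤ u
    · rw [(cI q hqu).2] at e
      by_cases hqu' : q' ≤ u
      · rw [(cI q' hqu').2] at e
        by_contra h
        exact nou r2 hr2u _ (rI q hq hqu r2 hr2 hr2u) le_sup_right
          (two q hq hqu q' hq' hqu' h _ le_sup_left (e ▸ le_sup_left))
      · by_cases hrq' : r q' = q'
        · exfalso
          rw [(cII q' hqu' hrq').2] at e
          exact nou r2 hr2u _ (rI q hq hqu r2 hr2 hr2u) le_sup_right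
            (two q hq hqu b2 hb2 hbu2 n2 _ le_sup_left (e ▸ le_sup_right))
        · exfalso
          rw [(cIII q' hqu' hrq').2] at e
          exact gu q' hq' hqu' hrq' q hq hqu (e ▸ le_sup_left)
    · by_cases hrq : r q = q
      · rw [(cII q hqu hrq).2] at e
        by_cases hqu' : q' ≤ u
        · exfalso
          rw [(cI q' hqu').2] at e
          exact nou r2 hr2u _ (rI q' hq' hqu' r2 hr2 hr2u) le_sup_right
            (two q' hq' hqu' b2 hb2 hbu2 m2 _ le_sup_left (e ▸ le_sup_right))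
        · by_cases hrq' : r q' = q'
          · rw [(cII q' hqu' hrq').2] at e
            exact repP q hq hqu hrq q' hq' hqu' hrq' ((le_sup_left : q' ≤ q' ⊔ b2).trans
              (e ▸ sup_le_sup_left hbu2 q))
          · exfalso
            rw [(cIII q' hqu' hrq').2] at e
            exact gu q' hq' hqu' hrq' b2 hb2 hbu2 (e ▸ le_sup_right)
      · rw [(cIII q hqu hrq).2] at e
        by_cases hqu' : q' ≤ u
        · exfalso
          rw [(cI q' hqu').2] at e
          exact gu q hq hqu hrq q' hq' hqu' (e ▸ le_sup_left)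
        · by_cases hrq' : r q' = q'
          · exfalso
            rw [(cII q' hqu' hrq').2] at e
            exact gu q hq hqu hrq b2 hb2 hbu2 (e ▸ le_sup_right)
          · rw [(cIII q' hqu' hrq').2] at e
            exact hginj q hq hqu hrq q' hq' hqu' hrq' e
  · -- first against second
    intro q hq hne q' hq' hne' e
    obtain ⟨n1, n2, n3, n4⟩ := cne q hne
    obtain ⟨m1, m2, m3, m4⟩ := cne q' hne'
    by_cases hqu : q ≤ u
    · rw [(cI q hqu).1] at e
      by_cases hqu' : q' ≤ u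
      · rw [(cI q' hqu').2] at e
        exact hr1u' ((le_sup_right : r1 ≤ q ⊔ r1).trans (e ▸ sup_le_sup_right hqu' r2))
      · by_cases hrq' : r q' = q'
        · rw [(cII q' hqu' hrq').2] at e
          exact nou r1 hr1u _ (rI q hq hqu r1 hr1 hr1u) le_sup_right
            (two q hq hqu b2 hb2 hbu2 n2 _ le_sup_left (e ▸ le_sup_right))
        · rw [(cIII q' hqu' hrq').2] at e
          exact gu q' hq' hqu' hrq' q hq hqu (e ▸ le_sup_left)
    · by_cases hrq : r q = q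
      · rw [(cII q hqu hrq).1] at e
        by_cases hqu' : q' ≤ u
        · rw [(cI q' hqu').2] at e
          exact nou r2 hr2u _ (rI q' hq' hqu' r2 hr2 hr2u) le_sup_right
            (two q' hq' hqu' b1 hb1 hbu1 m1 _ le_sup_left (e ▸ le_sup_right))
        · by_cases hrq' : r q' = q'
          · rw [(cII q' hqu' hrq').2] at e
            exact nou q hqu _ (rII q hq hqu b1 hb1 hbu1) le_sup_left
              (two b1 hb1 hbu1 b2 hb2 hbu2 hb12' _ le_sup_right (e ▸ le_sup_right))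
          · rw [(cIII q' hqu' hrq').2] at e
            exact gu q' hq' hqu' hrq' b1 hb1 hbu1 (e ▸ le_sup_right)
      · rw [(cIII q hqu hrq).1] at e
        have h1 := hc q hq hqu hrq
        by_cases hqu' : q' ≤ u
        · rw [(cI q' hqu').2] at e
          exact rep q hq hqu hrq r2 hr2 hr2u hrr2 (e ▸ le_sup_right)
        · by_cases hrq' : r q' = q'
          · rw [(cII q' hqu' hrq').2] at e
            exact rep q hq hqu hrq q' hq' hqu' hrq' (e ▸ le_sup_left)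
          · rw [(cIII q' hqu' hrq').2] at e
            exact gu q' hq' hqu' hrq' _ h1.1 h1.2.1 (e ▸ le_sup_right)
  · -- first lines and the basis
    intro q hq hne i j hij e
    obtain ⟨n1, n2, n3, n4⟩ := cne q hne
    by_cases hqu : q ≤ u
    · rw [(cI q hqu).1] at e
      have hl := rI q hq hqu r1 hr1 hr1u
      rcases bas_line b1 b2 r1 r2 i j hij with h | h | ⟨b, s, hb, hs, h⟩
      · rw [h, hb12] at e
        exact hr1u (e ▸ le_sup_right)
      · rw [h] at e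
        exact uv q hq hqu (e ▸ le_sup_left)
      · rw [h] at e
        rcases hb with rfl | rfl
        · exact nou r1 hr1u _ hl le_sup_right (two q hq hqu b hb1 hbu1 n1 _ le_sup_left
            (e ▸ le_sup_left))
        · exact nou r1 hr1u _ hl le_sup_right (two q hq hqu b hb2 hbu2 n2 _ le_sup_left
            (e ▸ le_sup_left))
    · by_cases hrq : r q = q
      · rw [(cII q hqu hrq).1] at e
        rcases bas_line b1 b2 r1 r2 i j hij with h | h | ⟨b, s, hb, hs, h⟩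
        · rw [h, hb12] at e
          exact hqu (e ▸ le_sup_left)
        · rw [h] at e
          exact uv b1 hb1 hbu1 (e ▸ le_sup_right)
        · rw [h] at e
          have hsq : s ≤ q ⊔ u := (e ▸ le_sup_right : s ≤ q ⊔ b1).trans (sup_le_sup_left hbu1 q)
          rcases hs with rfl | rfl
          · exact n3 (repP q hq hqu hrq s hr1 hr1u hrr1 hsq)
          · exact n4 (repP q hq hqu hrq s hr2 hr2u hrr2 hsq)
      · rw [(cIII q hqu hrq).1] at e
        have h1 := hc q hq hqu hrq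
        rcases bas_line b1 b2 r1 r2 i j hij with h | h | ⟨b, s, hb, hs, h⟩
        · rw [h, hb12] at e
          exact hqu (e ▸ le_sup_left)
        · rw [h] at e
          exact uv _ h1.1 h1.2.1 (e ▸ le_sup_right)
        · rw [h] at e
          rcases hs with rfl | rfl
          · exact rep q hq hqu hrq s hr1 hr1u hrr1 (e ▸ le_sup_right)
          · exact rep q hq hqu hrq s hr2 hr2u hrr2 (e ▸ le_sup_right)
  · -- second lines and the basis
    intro q hq hne i j hij e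
    obtain ⟨n1, n2, n3, n4⟩ := cne q hne
    by_cases hqu : q ≤ u
    · rw [(cI q hqu).2] at e
      have hl := rI q hq hqu r2 hr2 hr2u
      rcases bas_line b1 b2 r1 r2 i j hij with h | h | ⟨b, s, hb, hs, h⟩
      · rw [h, hb12] at e
        exact hr2u (e ▸ le_sup_right)
      · rw [h] at e
        exact uv q hq hqu (e ▸ le_sup_left)
      · rw [h] at e
        rcases hb with rfl | rfl
        · exact nou r2 hr2u _ hl le_sup_right (two q hq hqu b hb1 hbu1 n1 _ le_sup_left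
            (e ▸ le_sup_left))
        · exact nou r2 hr2u _ hl le_sup_right (two q hq hqu b hb2 hbu2 n2 _ le_sup_left
            (e ▸ le_sup_left))
    · by_cases hrq : r q = q
      · rw [(cII q hqu hrq).2] at e
        rcases bas_line b1 b2 r1 r2 i j hij with h | h | ⟨b, s, hb, hs, h⟩
        · rw [h, hb12] at e
          exact hqu (e ▸ le_sup_left)
        · rw [h] at e
          exact uv b2 hb2 hbu2 (e ▸ le_sup_right)
        · rw [h] at e
          have hsq : s ≤ q ⊔ u := (e ▸ le_sup_right : s ≤ q ⊔ b2).trans (sup_le_sup_left hbu2 q)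
          rcases hs with rfl | rfl
          · exact n3 (repP q hq hqu hrq s hr1 hr1u hrr1 hsq)
          · exact n4 (repP q hq hqu hrq s hr2 hr2u hrr2 hsq)
      · rw [(cIII q hqu hrq).2] at e
        rcases bas_line b1 b2 r1 r2 i j hij with h | h | ⟨b, s, hb, hs, h⟩
        · rw [h, hb12] at e
          exact hqu (e ▸ le_sup_left)
        · rw [h] at e
          exact hrq (hv q hq (e ▸ le_sup_left))
        · rw [h] at e
          rcases hb with rfl | rfl
          · exact gu q hq hqu hrq b hb1 hbu1 (e ▸ le_sup_left)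
          · exact gu q hq hqu hrq b hb2 hbu2 (e ▸ le_sup_left)
  · -- the planes
    have pI : ∀ q ∈ A, q ≤ u → q ⊔ c q ⊔ d q = q ⊔ (r1 ⊔ r2) := fun q hq hqu => by
      rw [(cI q hqu).1, (cI q hqu).2, sup_assoc]
    have pII : ∀ q ∈ A, ¬ q ≤ u → r q = q → q ⊔ c q ⊔ d q = q ⊔ u := fun q hq hqu hrq => by
      rw [(cII q hqu hrq).1, (cII q hqu hrq).2, sup_assoc, hb12]
    have pIII : ∀ q ∈ A, ¬ q ≤ u → r q ≠ q → q ⊔ c q ⊔ d q = H q := fun q hq hqu hrq => by
      rw [(cIII q hqu hrq).1, (cIII q hqu hrq).2]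
      have h1 := hc q hq hqu hrq
      have h2 := hg q hq hqu hrq
      have h3 := hH q hq hqu hrq
      refine eq_of_le_of_rk (sup_le h3.2.1 h2.2.1) ?_
      rw [rk_sup_atom (hA _ h2.1) h2.2.2, rII q hq hqu _ h1.1 h1.2.1, h3.1]
    have rkI : ∀ q ∈ A, q ≤ u → rk (q ⊔ (r1 ⊔ r2)) = 3 := fun q hq hqu => by
      rw [sup_comm, rk_sup_atom (hA q hq) (uv q hq hqu), hvrk]
    have rkII : ∀ q ∈ A, ¬ q ≤ u → rk (q ⊔ u) = 3 := fun q hq hqu => by
      rw [sup_comm, rk_sup_atom (hA q hq) hqu, hu]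
    intro q hq hne q' hq' hne' e
    obtain ⟨n1, n2, n3, n4⟩ := cne q hne
    obtain ⟨m1, m2, m3, m4⟩ := cne q' hne'
    by_cases hqu : q ≤ u
    · rw [pI q hq hqu] at e
      have k1 : r1 ≤ q ⊔ (r1 ⊔ r2) := le_sup_left.trans le_sup_right
      have k2 : r2 ≤ q ⊔ (r1 ⊔ r2) := le_sup_right.trans le_sup_right
      by_cases hqu' : q' ≤ u
      · rw [pI q' hq' hqu'] at e
        by_contra h
        exact huv _ (rkI q hq hqu)
          (two q hq hqu q' hq' hqu' h _ le_sup_left (e ▸ le_sup_left)) k1 k2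
      · exfalso
        by_cases hrq' : r q' = q'
        · rw [pII q' hq' hqu' hrq'] at e
          exact huv _ (rkI q hq hqu) (e ▸ le_sup_right) k1 k2
        · rw [pIII q' hq' hqu' hrq'] at e
          have h1 := Hu q' hq' hqu' hrq' q hq hqu (e ▸ le_sup_left)
          exact (hH q' hq' hqu' hrq').2.2.2 (by rw [← e, h1])
    · by_cases hrq : r q = q
      · rw [pII q hq hqu hrq] at e
        by_cases hqu' : q' ≤ u
        · exfalso
          rw [pI q' hq' hqu'] at e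
          exact huv _ (rkII q hq hqu) le_sup_right
            (e ▸ (le_sup_left.trans le_sup_right : r1 ≤ q' ⊔ (r1 ⊔ r2)))
            (e ▸ (le_sup_right.trans le_sup_right : r2 ≤ q' ⊔ (r1 ⊔ r2)))
        · by_cases hrq' : r q' = q'
          · rw [pII q' hq' hqu' hrq'] at e
            exact repP q hq hqu hrq q' hq' hqu' hrq' (e ▸ le_sup_left)
          · exfalso
            rw [pIII q' hq' hqu' hrq'] at e
            exact (hH q' hq' hqu' hrq').2.2.1 (e ▸ le_sup_right)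
      · rw [pIII q hq hqu hrq] at e
        by_cases hqu' : q' ≤ u
        · exfalso
          rw [pI q' hq' hqu'] at e
          have h1 := Hu q hq hqu hrq q' hq' hqu' (e ▸ le_sup_left)
          exact (hH q hq hqu hrq).2.2.2 (by rw [e, h1])
        · by_cases hrq' : r q' = q'
          · exfalso
            rw [pII q' hq' hqu' hrq'] at e
            exact (hH q hq hqu hrq).2.2.1 (e ▸ le_sup_right)
          · rw [pIII q' hq' hqu' hrq'] at e
            have h1 := hc q' hq' hqu' hrq'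
            have h2 := Hu q hq hqu hrq _ h1.1 h1.2.1
              (e ▸ (le_sup_right.trans (hH q' hq' hqu' hrq').2.1))
            exact hHinj q hq hqu hrq q' hq' hqu' hrq' h2.symm e
  · -- the planes and the basis
    intro q hq hne i j k hij hik hjk e
    obtain ⟨n1, n2, n3, n4⟩ := cne q hne
    by_cases hqu : q ≤ u
    · rw [(cI q hqu).1, (cI q hqu).2, sup_assoc] at e
      have hk : rk (q ⊔ (r1 ⊔ r2)) = 3 := by
        rw [sup_comm, rk_sup_atom (hA q hq) (uv q hq hqu), hvrk]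
      have k1 : r1 ≤ q ⊔ (r1 ⊔ r2) := le_sup_left.trans le_sup_right
      have k2 : r2 ≤ q ⊔ (r1 ⊔ r2) := le_sup_right.trans le_sup_right
      rcases bas_plane b1 b2 r1 r2 i j k hij hik hjk with ⟨s, -, h⟩ | ⟨b, hb, h⟩
      · rw [h, hb12] at e
        exact huv _ hk (e ▸ le_sup_left) k1 k2
      · rw [h] at e
        rcases hb with rfl | rfl
        · exact huv _ hk (two q hq hqu b hb1 hbu1 n1 _ le_sup_left (e ▸ le_sup_left)) k1 k2
        · exact huv _ hk (two q hq hqu b hb2 hbu2 n2 _ le_sup_left (e ▸ le_sup_left)) k1 k2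
    · by_cases hrq : r q = q
      · rw [(cII q hqu hrq).1, (cII q hqu hrq).2, sup_assoc, hb12] at e
        have hk : rk (q ⊔ u) = 3 := by
          rw [sup_comm, rk_sup_atom (hA q hq) hqu, hu]
        rcases bas_plane b1 b2 r1 r2 i j k hij hik hjk with ⟨s, hs, h⟩ | ⟨b, hb, h⟩
        · rw [h, hb12] at e
          have hsq : s ≤ q ⊔ u := e ▸ le_sup_right
          rcases hs with rfl | rfl
          · exact n3 (repP q hq hqu hrq s hr1 hr1u hrr1 hsq)
          · exact n4 (repP q hq hqu hrq s hr2 hr2u hrr2 hsq)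
        · rw [h] at e
          exact huv _ hk le_sup_right (e ▸ (le_sup_left.trans le_sup_right))
            (e ▸ (le_sup_right.trans le_sup_right))
      · have h1 := hc q hq hqu hrq
        have h2 := hg q hq hqu hrq
        have h3 := hH q hq hqu hrq
        have e0 : q ⊔ c q ⊔ d q = H q := by
          rw [(cIII q hqu hrq).1, (cIII q hqu hrq).2]
          refine eq_of_le_of_rk (sup_le h3.2.1 h2.2.1) ?_
          rw [rk_sup_atom (hA _ h2.1) h2.2.2, rII q hq hqu _ h1.1 h1.2.1, h3.1]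
        rw [e0] at e
        rcases bas_plane b1 b2 r1 r2 i j k hij hik hjk with ⟨s, hs, h⟩ | ⟨b, hb, h⟩
        · rw [h, hb12] at e
          exact h3.2.2.1 (e ▸ le_sup_left)
        · rw [h] at e
          rcases hb with rfl | rfl
          · have h5 := Hu q hq hqu hrq b hb1 hbu1 (e ▸ le_sup_left)
            exact h3.2.2.2 (by rw [e, h5])
          · have h5 := Hu q hq hqu hrq b hb2 hbu2 (e ▸ le_sup_left)
            exact h3.2.2.2 (by rw [e, h5])

end Pool.Agent.Helper38.Thick
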