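import Pool.Agent.Helper38.Thick.Core

/-!
# Peeling down to a set with thick planes
-/

set_option autoImplicit false
set_option linter.unusedSectionVars false

namespace Pool.Agent.Helper38.Thick

open Pool.Agent.Helper28.BPack Pool.Agent.Helper61.Motz

variable {L : Type} [Lattice L] [BoundedOrder L] [Finite L] [IsUpperModularLattice L]

/-- The peeling step. -/
theorem crit4_peel [DecidableEq L] {A : Finset L} (hA : ∀ a ∈ A, IsAtom a) {p a1 a2 : L}
    (hp : p ∈ A) (ha1 : a1 ∈ A) (ha2 : a2 ∈ A) (h12 : a1 ≠ a2) (hp12 : ¬ p ≤ a1 ⊔ a2)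
    (hord : ∀ z ∈ A, z ≤ p ⊔ a1 ⊔ a2 → z = p ∨ z ≤ a1 ⊔ a2) (h : Crit4 (A.erase p)) :
    Crit4 A := by
  obtain ⟨b, c, d, hb, hbr, hc, hcc, hdd, hcd, hcb, hdb, hpp, hpb⟩ := h
  -- joins of remaining points below the plane miss `p`
  have hmem : ∀ x ∈ A.erase p, x ≤ p ⊔ a1 ⊔ a2 → x ≤ a1 ⊔ a2 := fun x hx hle =>
    (hord x (Finset.mem_of_mem_erase hx) hle).resolve_left (Finset.ne_of_mem_erase hx)
  have key2 : ∀ x ∈ A.erase p, ∀ y ∈ A.erase p, x ⊔ y ≤ p ⊔ a1 ⊔ a2 → ¬ p ≤ x ⊔ y := by
    intro x hx y hy hle hle2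
    exact hp12 (hle2.trans (sup_le (hmem x hx (le_sup_left.trans hle))
      (hmem y hy (le_sup_right.trans hle))))
  have key3 : ∀ x ∈ A.erase p, ∀ y ∈ A.erase p, ∀ z ∈ A.erase p,
      x ⊔ y ⊔ z ≠ p ⊔ a1 ⊔ a2 := by
    intro x hx y hy z hz e
    have hx' := hmem x hx (e ▸ (le_sup_left.trans le_sup_left))
    have hy' := hmem y hy (e ▸ (le_sup_right.trans le_sup_left))
    have hz' := hmem z hz (e ▸ le_sup_right)
    exact hp12 ((le_sup_left.trans le_sup_left : p ≤ p ⊔ a1 ⊔ a2).trans
      (e.symm.le.trans (sup_le (sup_le hx' hy') hz')))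
  have n1 : ∀ x ∈ A.erase p, ∀ y ∈ A.erase p, x ⊔ y ≠ p ⊔ a1 := fun x hx y hy e =>
    key2 x hx y hy (e.le.trans le_sup_left) (e ▸ le_sup_left)
  have n2 : ∀ x ∈ A.erase p, ∀ y ∈ A.erase p, x ⊔ y ≠ p ⊔ a2 := fun x hx y hy e =>
    key2 x hx y hy (e.le.trans (sup_le (le_sup_left.trans le_sup_left) le_sup_right))
      (e ▸ le_sup_left)
  have hpa1 : a1 ≠ p := fun h => hp12 (h ▸ le_sup_left)
  have hE : ∀ q ∈ A, q ≠ p → q ∈ A.erase p := fun q hq h => Finset.mem_erase.mpr ⟨h, hq⟩
  refine ⟨b, fun q => if q = p then a1 else c q, fun q => if q = p then a2 else d q,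
    fun i => Finset.mem_of_mem_erase (hb i), hbr, ?_, ?_, ?_, ?_, ?_, ?_, ?_, ?_⟩
  · intro q hq hne
    by_cases h1 : q = p
    · simp only [h1, if_true]
      refine ⟨ha1, ha2, ?_⟩
      have h2 : p ⊔ a1 ⊔ a2 = a1 ⊔ a2 ⊔ p := by rw [sup_assoc, sup_comm]
      rw [h2, rk_sup_atom (hA p hp) hp12, rk_line (hA _ ha1) (hA _ ha2) h12]
    · simp only [h1, if_false]
      have h2 := hc q (hE q hq h1) hne
      exact ⟨Finset.mem_of_mem_erase h2.1, Finset.mem_of_mem_erase h2.2.1, h2.2.2⟩
  · intro q hq hne q' hq' hne' e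
    by_cases h1 : q = p <;> by_cases h2 : q' = p
    · rw [h1, h2]
    · exfalso
      simp only [h1, h2, if_true, if_false] at e
      exact n1 q' (hE q' hq' h2) _ (hc q' (hE q' hq' h2) hne').1 e.symm
    · exfalso
      simp only [h1, h2, if_true, if_false] at e
      exact n1 q (hE q hq h1) _ (hc q (hE q hq h1) hne).1 e
    · simp only [h1, h2, if_false] at e
      exact hcc q (hE q hq h1) hne q' (hE q' hq' h2) hne' e
  · intro q hq hne q' hq' hne' e
    by_cases h1 : q = p <;> by_cases h2 : q' = p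
    · rw [h1, h2]
    · exfalso
      simp only [h1, h2, if_true, if_false] at e
      exact n2 q' (hE q' hq' h2) _ (hc q' (hE q' hq' h2) hne').2.1 e.symm
    · exfalso
      simp only [h1, h2, if_true, if_false] at e
      exact n2 q (hE q hq h1) _ (hc q (hE q hq h1) hne).2.1 e
    · simp only [h1, h2, if_false] at e
      exact hdd q (hE q hq h1) hne q' (hE q' hq' h2) hne' e
  · intro q hq hne q' hq' hne'
    by_cases h1 : q = p <;> by_cases h2 : q' = p
    · simp only [h1, h2, if_true]
      intro e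
      have e1 : p ⊔ a1 ⊔ a2 = p ⊔ a1 := by
        apply sup_eq_left.mpr
        rw [e]
        exact le_sup_right
      have e2 : p ⊔ a1 ⊔ a2 = a1 ⊔ a2 ⊔ p := by rw [sup_assoc, sup_comm]
      have e3 := rk_sup_atom (hA p hp) hp12
      rw [← e2, e1, rk_line (hA p hp) (hA _ ha1) hpa1.symm,
        rk_line (hA _ ha1) (hA _ ha2) h12] at e3
      omega
    · simp only [h1, h2, if_true, if_false]
      exact (n1 q' (hE q' hq' h2) _ (hc q' (hE q' hq' h2) hne').2.1).symm
    · simp only [h1, h2, if_true, if_false]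
      exact n2 q (hE q hq h1) _ (hc q (hE q hq h1) hne).1
    · simp only [h1, h2, if_false]
      exact hcd q (hE q hq h1) hne q' (hE q' hq' h2) hne'
  · intro q hq hne i j hij
    by_cases h1 : q = p
    · simp only [h1, if_true]
      exact (n1 _ (hb i) _ (hb j)).symm
    · simp only [h1, if_false]
      exact hcb q (hE q hq h1) hne i j hij
  · intro q hq hne i j hij
    by_cases h1 : q = p
    · simp only [h1, if_true]
      exact (n2 _ (hb i) _ (hb j)).symm
    · simp only [h1, if_false]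
      exact hdb q (hE q hq h1) hne i j hij
  · intro q hq hne q' hq' hne' e
    by_cases h1 : q = p <;> by_cases h2 : q' = p
    · rw [h1, h2]
    · exfalso
      simp only [h1, h2, if_true, if_false] at e
      have h3 := hc q' (hE q' hq' h2) hne'
      exact key3 q' (hE q' hq' h2) _ h3.1 _ h3.2.1 e.symm
    · exfalso
      simp only [h1, h2, if_true, if_false] at e
      have h3 := hc q (hE q hq h1) hne
      exact key3 q (hE q hq h1) _ h3.1 _ h3.2.1 e
    · simp only [h1, h2, if_false] at e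
      exact hpp q (hE q hq h1) hne q' (hE q' hq' h2) hne' e
  · intro q hq hne i j k hij hik hjk
    by_cases h1 : q = p
    · simp only [h1, if_true]
      exact (key3 _ (hb i) _ (hb j) _ (hb k)).symm
    · simp only [h1, if_false]
      exact hpb q (hE q hq h1) hne i j k hij hik hjk

/-- The planes of rank four sets without near pencils are thick: the induction. -/
theorem crit4_all [DecidableEq L] [DecidableRel (α := L) (· ≤ ·)]
    (hth : ∀ A : Finset L, (∀ a ∈ A, IsAtom a) → rk (A.sup id) = 4 → Core A → Thick A) :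
    ∀ (n : ℕ) (A : Finset L), A.card = n → (∀ a ∈ A, IsAtom a) → rk (A.sup id) = 4 → Crit4 A := by
  intro n
  induction n with
  | zero =>
    intro A hA _ hr
    rw [Finset.card_eq_zero] at hA
    rw [hA, Finset.sup_empty, rk_bot] at hr
    omega
  | succ n ih =>
    intro A hcard hA hr
    by_cases hcore : Core A
    · exact crit4_of_thick hA hr hcore (hth A hA hr hcore)
    · rw [Core] at hcore
      push Not at hcore
      obtain ⟨p, hp, a1, ha1, a2, ha2, h12, hp12, hord⟩ := hcore
      have hord' : ∀ z ∈ A, z ≤ p ⊔ a1 ⊔ a2 → z = p ∨ z ≤ a1 ⊔ a2 := by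
        intro z hz hzp
        by_cases hzp' : z = p
        · exact Or.inl hzp'
        · exact Or.inr (hord z hz hzp hzp')
      by_cases hcol : rk ((A.erase p).sup id) ≤ 3
      · have hsup := sup_erase hp
        have hph : ¬ p ≤ (A.erase p).sup id := fun h1 => by
          rw [sup_eq_left.mpr h1] at hsup
          rw [hsup] at hr
          omega
        have hr3 : rk ((A.erase p).sup id) = 3 := by
          have h1 := rk_sup_atom (hA p hp) hph
          rw [← hsup, hr] at h1
          omega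
        exact crit4_of_crit3 hA hp hr3 hph (Pool.Agent.Helper80.BP.crit3_all _
          (fun a ha => hA a (Finset.mem_of_mem_erase ha)) hr3)
      · have hr4 : rk ((A.erase p).sup id) = 4 := by
          have h2 : (A.erase p).sup id ≤ A.sup id := Finset.sup_mono (Finset.erase_subset _ _)
          have h3 := rk_mono h2
          omega
        exact crit4_peel hA hp ha1 ha2 h12 hp12 hord' (ih (A.erase p)
          (by rw [Finset.card_erase_of_mem hp, hcard]; rfl)
          (fun a ha => hA a (Finset.mem_of_mem_erase ha)) hr4)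

/-- One core is enough: peeling in a given order. -/
inductive Red [DecidableEq L] [DecidableRel (α := L) (· ≤ ·)] : Finset L → Prop
  | thick {A : Finset L} (h : Core A) (ht : Thick A) : Red A
  | low {A : Finset L} (h : rk (A.sup id) ≤ 3) : Red A
  | step {A : Finset L} {p a1 a2 : L} (hp : p ∈ A) (ha1 : a1 ∈ A) (ha2 : a2 ∈ A) (h12 : a1 ≠ a2)
      (hp12 : ¬ p ≤ a1 ⊔ a2) (hord : ∀ z ∈ A, z ≤ p ⊔ a1 ⊔ a2 → z = p ∨ z ≤ a1 ⊔ a2)
      (h : Red (A.erase p)) : Red A

theorem crit4_of_red [DecidableEq L] [DecidableRel (α := L) (· ≤ ·)] {A : Finset L} (h : Red A)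
    (hA : ∀ a ∈ A, IsAtom a) (hr : rk (A.sup id) = 4) : Crit4 A := by
  induction h with
  | thick h ht => exact crit4_of_thick hA hr h ht
  | low h => omega
  | @step A p a1 a2 hp ha1 ha2 h12 hp12 hord h ih =>
    by_cases hcol : rk ((A.erase p).sup id) ≤ 3
    · have hsup := sup_erase hp
      have hph : ¬ p ≤ (A.erase p).sup id := fun h1 => by
        rw [sup_eq_left.mpr h1] at hsup
        rw [hsup] at hr
        omega
      have hr3 : rk ((A.erase p).sup id) = 3 := by
        have h1 := rk_sup_atom (hA p hp) hph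
        rw [← hsup, hr] at h1
        omega
      exact crit4_of_crit3 hA hp hr3 hph (Pool.Agent.Helper80.BP.crit3_all _
        (fun a ha => hA a (Finset.mem_of_mem_erase ha)) hr3)
    · have hr4 : rk ((A.erase p).sup id) = 4 := by
        have h2 : (A.erase p).sup id ≤ A.sup id := Finset.sup_mono (Finset.erase_subset _ _)
        have h3 := rk_mono h2
        omega
      exact crit4_peel hA hp ha1 ha2 h12 hp12 hord
        (ih (fun a ha => hA a (Finset.mem_of_mem_erase ha)) hr4)

/-- **Packing.** -/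
theorem hasPack_of_red [DecidableEq L] [DecidableRel (α := L) (· ≤ ·)]
    (hat : ∀ x : L, ∃ s : Finset L, (∀ a ∈ s, IsAtom a) ∧ s.sup id = x)
    (hr : rk (⊤ : L) = 4) {A : Finset L} (hmem : ∀ a, a ∈ A ↔ IsAtom a)
    (h : Crit4 A) : HasPack (⊥ : L) := by
  obtain ⟨b, c, d, hb, hbr, hc, hcc, hdd, hcd, hcb, hdb, hpp, hpb⟩ := h
  have _ := hat
  refine hasPack_of_crit hr b (fun i => (hmem _).mp (hb i))
    (eq_of_le_of_rk le_top (by rw [hr, hbr])) c d ?_ ?_ ?_ ?_ ?_ ?_ ?_ ?_
  · intro q hq hne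
    have h1 := hc q ((hmem q).mpr hq) hne
    exact ⟨(hmem _).mp h1.1, (hmem _).mp h1.2.1, h1.2.2⟩
  · intro q q' hq hne hq' hne' e
    exact hcc q ((hmem q).mpr hq) hne q' ((hmem q').mpr hq') hne' e
  · intro q q' hq hne hq' hne' e
    exact hdd q ((hmem q).mpr hq) hne q' ((hmem q').mpr hq') hne' e
  · intro q q' hq hne hq' hne'
    exact hcd q ((hmem q).mpr hq) hne q' ((hmem q').mpr hq') hne'
  · intro q i j hq hne hij
    exact hcb q ((hmem q).mpr hq) hne i j hij
  · intro q i j hq hne hij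
    exact hdb q ((hmem q).mpr hq) hne i j hij
  · intro q q' hq hne hq' hne' e
    exact hpp q ((hmem q).mpr hq) hne q' ((hmem q').mpr hq') hne' e
  · intro q i j k hq hne hij hik hjk
    exact hpb q ((hmem q).mpr hq) hne i j k hij hik hjk

end Pool.Agent.Helper38.Thick
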