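import Pool.Agent.Helper38.Thick.Level1

/-!
# Level 3: the second lines
-/

set_option autoImplicit false
set_option linter.unusedSectionVars false

namespace Pool.Agent.Helper38.Thick

open Pool.Agent.Helper28.BPack Pool.Agent.Helper61.Motz

variable {L : Type} [Lattice L] [BoundedOrder L] [Finite L] [IsUpperModularLattice L]

/-- The lines through `x` in `H` which are not on `k`. -/
def pen [DecidableEq L] [DecidableRel (α := L) (· ≤ ·)] (A : Finset L) (x k H : L) : Finset L :=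
  (A.filter (fun z => z ≤ H ∧ ¬ z ≤ k)).image (fun z => x ⊔ z)

theorem mem_pen [DecidableEq L] [DecidableRel (α := L) (· ≤ ·)] {A : Finset L} {x k H g : L} :
    g ∈ pen A x k H ↔ ∃ z ∈ A, z ≤ H ∧ ¬ z ≤ k ∧ x ⊔ z = g := by
  simp only [pen, Finset.mem_image, Finset.mem_filter]
  constructor
  · rintro ⟨z, ⟨h1, h2, h3⟩, h4⟩
    exact ⟨z, h1, h2, h3, h4⟩
  · rintro ⟨z, h1, h2, h3, h4⟩
    exact ⟨z, ⟨h1, h2, h3⟩, h4⟩

theorem level3 [DecidableEq L] [DecidableRel (α := L) (· ≤ ·)] {A R : Finset L} {u : L}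
    {cc H : L → L}
    (hA : ∀ a ∈ A, IsAtom a)
    (hR : ∀ x ∈ R, x ∈ A ∧ ¬ x ≤ u)
    (hcc : ∀ x ∈ R, cc x ∈ A ∧ cc x ≤ u)
    (hH : ∀ x ∈ R, rk (H x) = 3 ∧ x ⊔ cc x ≤ H x)
    (hC : ∀ x ∈ R, (1 : ℚ) ≤ ∑ g ∈ pen A x (x ⊔ cc x) (H x),
      (1 : ℚ) / (A.filter (· ≤ g)).card) :
    ∃ gg : L → L, (∀ x ∈ R, gg x ∈ A ∧ gg x ≤ H x ∧ ¬ gg x ≤ x ⊔ cc x) ∧
      (∀ x ∈ R, ∀ y ∈ R, x ⊔ gg x = y ⊔ gg y → x = y) := by
  set T : L → Finset L := fun x => pen A x (x ⊔ cc x) (H x) with hT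
  have hmT : ∀ x g, g ∈ T x ↔ ∃ z ∈ A, z ≤ H x ∧ ¬ z ≤ x ⊔ cc x ∧ x ⊔ z = g := fun x g => mem_pen
  -- basic facts on candidates
  have hcand : ∀ x ∈ R, ∀ g ∈ T x, rk g = 2 ∧ x ≤ g ∧ g ≤ H x ∧ ¬ cc x ≤ g ∧ g ⊔ cc x = H x := by
    intro x hx g hg
    obtain ⟨z, hz, hzH, hzk, rfl⟩ := (hmT x g).mp hg
    have hxz : x ≠ z := fun h => hzk (h ▸ le_sup_left)
    have hxA := hA x (hR x hx).1
    have hcA := hA _ (hcc x hx).1
    have h2 : rk (x ⊔ z) = 2 := rk_line hxA (hA z hz) hxz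
    have hxc : x ≠ cc x := fun h => (hR x hx).2 (by rw [h]; exact (hcc x hx).2)
    have hn : ¬ cc x ≤ x ⊔ z := by
      intro h
      have h3 : x ⊔ cc x = x ⊔ z := line_of hxA hcA hxc le_sup_left h h2
      exact hzk (h3 ▸ le_sup_right)
    have hle : x ⊔ z ≤ H x := sup_le (le_sup_left.trans (hH x hx).2) hzH
    refine ⟨h2, le_sup_left, hle, hn, ?_⟩
    exact eq_of_le_of_rk (sup_le hle (le_sup_right.trans (hH x hx).2))
      (by rw [rk_sup_atom hcA hn, h2, (hH x hx).1])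
  -- few contenders
  have hfew : ∀ S ⊆ R, ∀ g, (S.filter (fun x => g ∈ T x)).card ≤ (A.filter (· ≤ g)).card := by
    intro S hS g
    apply Finset.card_le_card
    intro x hx
    rw [Finset.mem_filter] at hx ⊢
    exact ⟨(hR x (hS hx.1)).1, (hcand x (hS hx.1) g hx.2).2.1⟩
  have hall : ∀ S : Finset {x // x ∈ R}, S.card ≤ (S.biUnion (fun x => T x.1)).card := by
    intro S
    set S' : Finset L := S.map (Function.Embedding.subtype _) with hS'
    have hc : S.card = S'.card := by rw [hS', Finset.card_map]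
    have hmS' : ∀ x, x ∈ S' ↔ ∃ y ∈ S, y.1 = x := by
      intro x
      rw [hS', Finset.mem_map]
      rfl
    have hS'R : S' ⊆ R := by
      intro x hx
      obtain ⟨y, -, rfl⟩ := (hmS' x).mp hx
      exact y.2
    set N := S.biUnion (fun x => T x.1) with hN
    have hTN : ∀ x ∈ S', T x ⊆ N := by
      intro x hx g hg
      obtain ⟨y, hy, rfl⟩ := (hmS' x).mp hx
      exact Finset.mem_biUnion.mpr ⟨y, hy, hg⟩
    have h1 : (S'.card : ℚ) ≤ ∑ x ∈ S', ∑ g ∈ T x, (1 : ℚ) / (A.filter (· ≤ g)).card := by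
      have := Finset.sum_le_sum (s := S') (f := fun _ => (1 : ℚ)) (fun x hx => hC x (hS'R hx))
      rwa [Finset.sum_const, nsmul_eq_mul, mul_one] at this
    have h2 : ∑ x ∈ S', ∑ g ∈ T x, (1 : ℚ) / (A.filter (· ≤ g)).card =
        ∑ g ∈ N, ∑ x ∈ S'.filter (fun x => g ∈ T x), (1 : ℚ) / (A.filter (· ≤ g)).card := by
      have e1 : ∀ x ∈ S', ∑ g ∈ T x, (1 : ℚ) / (A.filter (· ≤ g)).card =
          ∑ g ∈ N, if g ∈ T x then (1 : ℚ) / (A.filter (· ≤ g)).card else 0 := by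
        intro x hx
        rw [← Finset.sum_filter]
        congr 1
        ext g
        rw [Finset.mem_filter]
        exact ⟨fun h => ⟨hTN x hx h, h⟩, fun h => h.2⟩
      rw [Finset.sum_congr rfl e1, Finset.sum_comm]
      apply Finset.sum_congr rfl
      intro g _
      rw [Finset.sum_filter]
    have h3 : ∑ g ∈ N, ∑ x ∈ S'.filter (fun x => g ∈ T x), (1 : ℚ) / (A.filter (· ≤ g)).card ≤
        ∑ g ∈ N, (1 : ℚ) := by
      apply Finset.sum_le_sum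
      intro g _
      rw [Finset.sum_const, nsmul_eq_mul, mul_one_div]
      have h4 := hfew S' hS'R g
      exact div_le_one_of_le₀ (by exact_mod_cast h4) (by positivity)
    rw [Finset.sum_const, nsmul_eq_mul, mul_one] at h3
    rw [hc]
    have h5 := h1.trans (h2.le.trans h3)
    exact_mod_cast h5
  obtain ⟨f, hf, hft⟩ := (Finset.all_card_le_biUnion_card_iff_exists_injective _).mp hall
  have hex : ∀ x : {x // x ∈ R}, ∃ z ∈ A, z ≤ H x.1 ∧ ¬ z ≤ x.1 ⊔ cc x.1 ∧ x.1 ⊔ z = f x :=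
    fun x => (hmT _ _).mp (hft x)
  choose z hz hzH hzk hzf using hex
  refine ⟨fun x => if h : x ∈ R then z ⟨x, h⟩ else x, ?_, ?_⟩
  · intro x hx
    simp only [hx, dite_true]
    exact ⟨hz ⟨x, hx⟩, hzH ⟨x, hx⟩, hzk ⟨x, hx⟩⟩
  · intro x hx y hy e
    simp only [hx, hy, dite_true] at e
    have h1 : f ⟨x, hx⟩ = f ⟨y, hy⟩ := by
      rw [← hzf ⟨x, hx⟩, ← hzf ⟨y, hy⟩]
      exact e
    exact congrArg Subtype.val (hf h1)

end Pool.Agent.Helper38.Thick
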