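import Pool.Agent.Helper38.Thick.Frame
import Pool.Agent.Helper38.Thick.Level3
import Pool.Agent.Helper28.Level2
import Pool.Agent.Helper80.BP.Crit3All

/-!
# Rank four data for sets of atoms with thick planes, and peeling
-/

set_option autoImplicit false
set_option linter.unusedSectionVars false

namespace Pool.Agent.Helper38.Thick

open Pool.Agent.Helper28.BPack Pool.Agent.Helper61.Motz

variable {L : Type} [Lattice L] [BoundedOrder L] [Finite L] [IsUpperModularLattice L]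

/-- In every plane the lines through a point, one of them left out, are many or short. -/
def Thick [DecidableEq L] [DecidableRel (α := L) (· ≤ ·)] (A : Finset L) : Prop :=
  ∀ H : L, rk H = 3 → ∀ x ∈ A, ∀ c ∈ A, x ≠ c → x ≤ H → c ≤ H → (∃ z ∈ A, z ≤ H ∧ ¬ z ≤ x ⊔ c) →
    (1 : ℚ) ≤ ∑ g ∈ pen A x (x ⊔ c) H, (1 : ℚ) / (A.filter (· ≤ g)).card

/-- Rank four data for a set without near pencils with thick planes. -/
theorem crit4_of_thick [DecidableEq L] [DecidableRel (α := L) (· ≤ ·)] {A : Finset L}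
    (hA : ∀ a ∈ A, IsAtom a) (hrA : rk (A.sup id) = 4) (hcore : Core A) (hth : Thick A) :
    Crit4 A := by
  obtain ⟨u, b1, b2, r1, r2, r, hu, hb1, hb2, hb12, hbu, hr1, hr2, h4, hmax, hr, hrr, hrr1, hrr2,
    hrv, hno⟩ := frame_exists hA hrA hcore
  have hbu1 : b1 ≤ u := hbu ▸ le_sup_left
  have hbu2 : b2 ≤ u := hbu ▸ le_sup_right
  set v := r1 ⊔ r2 with hvdef
  -- more on the frame
  have hr2u' : ¬ r2 ≤ u ⊔ r1 := by
    intro h
    have h1 := rk_sup_atom_le (x := u) (hA r1 hr1)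
    rw [sup_eq_left.mpr h] at h4
    omega
  have hr12 : r1 ≠ r2 := fun h => hr2u' (h ▸ le_sup_right)
  have hv : rk v = 2 := rk_line (hA r1 hr1) (hA r2 hr2) hr12
  have huv : rk (u ⊔ v) = 4 := by rw [hvdef, ← sup_assoc]; exact h4
  have rkP : ∀ q ∈ A, ¬ q ≤ u → rk (q ⊔ u) = 3 := fun q hq hqu => by
    rw [sup_comm, rk_sup_atom (hA q hq) hqu, hu]
  have hr1u : ¬ r1 ≤ u := by
    intro h
    have h1 := rk_sup_atom_le (x := u) (hA r2 hr2)
    rw [sup_eq_left.mpr h] at h4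
    omega
  have hr2u : ¬ r2 ≤ u := fun h => hr2u' (h.trans le_sup_left)
  set R : Finset L := A.filter (fun x => ¬ x ≤ u ∧ r x ≠ x) with hRdef
  have hmR : ∀ x, x ∈ R ↔ x ∈ A ∧ ¬ x ≤ u ∧ r x ≠ x := fun x => by simp [hRdef]
  have hU : 2 ≤ (A.filter (· ≤ u)).card := by
    have h2 : ({b1, b2} : Finset L) ⊆ A.filter (· ≤ u) := by
      intro z hz
      rw [Finset.mem_insert, Finset.mem_singleton] at hz
      rw [Finset.mem_filter]
      rcases hz with rfl | rfl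
      · exact ⟨hb1, hbu1⟩
      · exact ⟨hb2, hbu2⟩
    have h3 := Finset.card_le_card h2
    rwa [Finset.card_pair hb12] at h3
  -- level 1
  obtain ⟨cc, hcc, hccinj⟩ := level1 (R := R) (r := r) hA hu hU (fun k hk _ => hmax k hk)
    (fun x hx => by
      obtain ⟨h1, h2, h3⟩ := (hmR x).mp hx
      exact ⟨h1, h2, hA _ (hr x h1 h2).1, h3⟩)
  -- level 2
  have hl2 : ∀ c, c ∈ A → c ≤ u → ∃ H : L → L, (∀ x ∈ R.filter (fun x => cc x = c),
        rk (H x) = 3 ∧ x ⊔ c ≤ H x ∧ ¬ u ≤ H x ∧ H x ≠ c ⊔ v ∧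
        ∃ z ∈ A, z ≤ H x ∧ ¬ z ≤ x ⊔ c) ∧
      (∀ x ∈ R.filter (fun x => cc x = c), ∀ y ∈ R.filter (fun x => cc x = c),
        H x = H y → x = y) := by
    intro c hc hcu
    have hG : ∀ x ∈ R.filter (fun x => cc x = c), x ∈ R ∧ cc x = c := fun x hx =>
      Finset.mem_filter.mp hx
    have hrep : ∀ x ∈ A, ¬ x ≤ u → ∀ s ∈ A, ¬ s ≤ u → r s = s → x ⊔ u = s ⊔ u → r x = s := by
      intro x hx hxu s hs hsu hss e
      rw [hrr x hx hxu s hs hsu (e ▸ le_sup_left), hss]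
    apply Pool.Agent.Helper28.Level2.level2 (r1 := r1) (r2 := r2) (r := r) (u := u) hA hrA hu hv
      huv hc hcu hr1 hr2 le_sup_left le_sup_right hr12
    · intro x hx
      obtain ⟨hxR, hxc⟩ := hG x hx
      obtain ⟨h1, h2, h3⟩ := (hmR x).mp hxR
      have h5 := hr x h1 h2
      refine ⟨h1, h2, h5.1, h5.2.1, h5.2.2, ?_⟩
      rw [← hxc]
      exact (hcc x hxR).2.2
    · intro x hx y hy e
      obtain ⟨hx1, hx2, -⟩ := (hmR x).mp (hG x hx).1
      obtain ⟨hy1, hy2, -⟩ := (hmR y).mp (hG y hy).1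
      exact hrr x hx1 hx2 y hy1 hy2 (e ▸ le_sup_left)
    · intro x hx e
      obtain ⟨hx1, hx2, -⟩ := (hmR x).mp (hG x hx).1
      exact hrep x hx1 hx2 r1 hr1 hr1u hrr1 e
    · intro x hx e
      obtain ⟨hx1, hx2, -⟩ := (hmR x).mp (hG x hx).1
      exact hrep x hx1 hx2 r2 hr2 hr2u hrr2 e
    · intro x hx y hy e
      obtain ⟨hxR, hxc⟩ := hG x hx
      obtain ⟨hyR, hyc⟩ := hG y hy
      exact hccinj x hxR y hyR (by rw [hxc, hyc]; exact e)
    · intro x hx hle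
      obtain ⟨hxR, hxc⟩ := hG x hx
      obtain ⟨hx1, hx2, -⟩ := (hmR x).mp hxR
      exact hno c hc hcu x hx1 hx2 (by rw [← hxc]; exact (hcc x hxR).2.2) hle
  choose! HH hHH hHHinj using hl2
  set H : L → L := fun x => HH (cc x) x with hHdef
  have hH : ∀ x ∈ R, rk (H x) = 3 ∧ x ⊔ cc x ≤ H x ∧ ¬ u ≤ H x ∧ H x ≠ cc x ⊔ v ∧
      ∃ z ∈ A, z ≤ H x ∧ ¬ z ≤ x ⊔ cc x := by
    intro x hx
    exact hHH (cc x) (hcc x hx).1 (hcc x hx).2.1 x (Finset.mem_filter.mpr ⟨hx, rfl⟩)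
  have hHinj : ∀ x ∈ R, ∀ y ∈ R, cc x = cc y → H x = H y → x = y := by
    intro x hx y hy e1 e2
    have e2' : HH (cc x) x = HH (cc x) y := by
      have : HH (cc y) y = HH (cc x) y := by rw [e1]
      rw [← this]
      exact e2
    exact hHHinj (cc x) (hcc x hx).1 (hcc x hx).2.1 x (Finset.mem_filter.mpr ⟨hx, rfl⟩) y
      (Finset.mem_filter.mpr ⟨hy, e1.symm⟩) e2'
  -- level 3
  obtain ⟨gg, hgg, hgginj⟩ := level3 (R := R) (u := u) (cc := cc) (H := H) hA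
    (fun x hx => ⟨((hmR x).mp hx).1, ((hmR x).mp hx).2.1⟩)
    (fun x hx => ⟨(hcc x hx).1, (hcc x hx).2.1⟩)
    (fun x hx => ⟨(hH x hx).1, (hH x hx).2.1⟩)
    (fun x hx => by
      obtain ⟨h1, h2, h3, h4', h5⟩ := hH x hx
      have hxA := (hmR x).mp hx
      have hne : x ≠ cc x := fun h => hxA.2.1 (by rw [h]; exact (hcc x hx).2.1)
      exact hth (H x) h1 x hxA.1 (cc x) (hcc x hx).1 hne (le_sup_left.trans h2)
        (le_sup_right.trans h2) h5)
  -- assembly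
  have hR' : ∀ x ∈ A, ¬ x ≤ u → r x ≠ x → x ∈ R := fun x h1 h2 h3 => (hmR x).mpr ⟨h1, h2, h3⟩
  refine crit4_of_levels (u := u) (b1 := b1) (b2 := b2) (r1 := r1) (r2 := r2) (r := r) (cc := cc)
    (gg := gg) (H := H) hA hu hb1 hb2 hbu hr1 hr2 h4 hrr hrr1 hrr2 hrv ?_ ?_ ?_ ?_ ?_ ?_
  · intro x h1 h2 h3
    exact hcc x (hR' x h1 h2 h3)
  · intro x h1 h2 h3 y h1' h2' h3' e
    exact hccinj x (hR' x h1 h2 h3) y (hR' y h1' h2' h3') e
  · intro x h1 h2 h3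
    obtain ⟨k1, k2, k3, k4, -⟩ := hH x (hR' x h1 h2 h3)
    exact ⟨k1, k2, k3, k4⟩
  · intro x h1 h2 h3 y h1' h2' h3' e1 e2
    exact hHinj x (hR' x h1 h2 h3) y (hR' y h1' h2' h3') e1 e2
  · intro x h1 h2 h3
    exact hgg x (hR' x h1 h2 h3)
  · intro x h1 h2 h3 y h1' h2' h3' e
    exact hgginj x (hR' x h1 h2 h3) y (hR' y h1' h2' h3') e

end Pool.Agent.Helper38.Thick
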