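import Pool.Agent.Helper38.Thick.Core

/-!
# Rank four data when most planes through a point meet in lines
-/

set_option autoImplicit false
set_option linter.unusedSectionVars false

namespace Pool.Agent.Helper38.Thick

open Pool.Agent.Helper28.BPack Pool.Agent.Helper61.Motz

/-- Hall's theorem from shares (helper40). -/
theorem hall_shares {X Y : Type} [Fintype X] [DecidableEq X] [DecidableEq Y]
    (W : X → Finset Y) (τ : X → Y → ℚ) (h0 : ∀ x y, 0 ≤ τ x y)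
    (hdem : ∀ x, 1 ≤ ∑ y ∈ W x, τ x y)
    (hload : ∀ y, ∑ x ∈ Finset.univ.filter (fun x => y ∈ W x), τ x y ≤ 1) :
    ∃ F : X → Y, Function.Injective F ∧ ∀ x, F x ∈ W x := by
  apply (Finset.all_card_le_biUnion_card_iff_exists_injective W).mp
  intro s
  have h1 : (s.card : ℚ) ≤ ∑ x ∈ s, ∑ y ∈ W x, τ x y := by
    calc (s.card : ℚ) = ∑ x ∈ s, (1 : ℚ) := by simp
      _ ≤ _ := Finset.sum_le_sum fun x _ => hdem x
  have h2 : ∑ x ∈ s, ∑ y ∈ W x, τ x y =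
      ∑ y ∈ s.biUnion W, ∑ x ∈ s.filter (fun x => y ∈ W x), τ x y := by
    have h3 : ∀ x ∈ s, ∑ y ∈ W x, τ x y = ∑ y ∈ s.biUnion W, if y ∈ W x then τ x y else 0 := by
      intro x hx
      rw [← Finset.sum_filter]
      apply Finset.sum_congr
      · ext y
        rw [Finset.mem_filter, Finset.mem_biUnion]
        exact ⟨fun h => ⟨⟨x, hx, h⟩, h⟩, fun h => h.2⟩
      · intros; rfl
    rw [Finset.sum_congr rfl h3, Finset.sum_comm]
    apply Finset.sum_congr rfl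
    intro y _
    rw [Finset.sum_filter]
  have h4 : ∑ y ∈ s.biUnion W, ∑ x ∈ s.filter (fun x => y ∈ W x), τ x y ≤
      ((s.biUnion W).card : ℚ) := by
    calc _ ≤ ∑ y ∈ s.biUnion W, (1 : ℚ) := by
          apply Finset.sum_le_sum
          intro y _
          refine le_trans ?_ (hload y)
          apply Finset.sum_le_sum_of_subset_of_nonneg
          · intro x hx
            rw [Finset.mem_filter] at hx ⊢
            exact ⟨Finset.mem_univ _, hx.2⟩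
          · intro x _ _
            exact h0 x y
      _ = _ := by simp
  have h5 : (s.card : ℚ) ≤ ((s.biUnion W).card : ℚ) := by linarith
  exact_mod_cast h5

variable {L : Type} [Lattice L] [BoundedOrder L] [Finite L] [IsUpperModularLattice L]

/-- Level 2 for all rows of the colour `c` not through the chosen points. -/
theorem level2_rows {A : Finset L} {u v c r1 r2 : L} {r : L → L}
    (hA : ∀ a ∈ A, IsAtom a) (hrA : rk (A.sup id) = 4) (hu : rk u = 2) (hv : rk v = 2)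
    (huv : rk (u ⊔ v) = 4) (hc : c ∈ A) (hcu : c ≤ u)
    (hr1 : r1 ∈ A) (hr2 : r2 ∈ A) (hr1u : ¬ r1 ≤ u) (hr2u : ¬ r2 ≤ u)
    (hr1v : r1 ≤ v) (hr2v : r2 ≤ v) (hr12 : r1 ≠ r2)
    (hr : ∀ x ∈ A, ¬ x ≤ u → r x ∈ A ∧ ¬ r x ≤ u ∧ r x ≤ x ⊔ u)
    (hrr : ∀ x ∈ A, ¬ x ≤ u → ∀ y ∈ A, ¬ y ≤ u → y ≤ x ⊔ u → r x = r y)
    (hrr1 : r r1 = r1) (hrr2 : r r2 = r2)
    (hno : ∀ x ∈ A, ¬ x ≤ u → ¬ r x ≤ x ⊔ c → x ≤ c ⊔ v →
      ∃ y ∈ A, ¬ y ≤ x ⊔ u ∧ ¬ y ≤ c ⊔ v) :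
    ∃ HR : L → L, (∀ x ∈ A, ¬ x ≤ u → ¬ r x ≤ x ⊔ c →
        rk (HR x) = 3 ∧ x ⊔ c ≤ HR x ∧ ¬ u ≤ HR x ∧ HR x ≠ c ⊔ v ∧
        ∃ z ∈ A, z ≤ HR x ∧ ¬ z ≤ x ⊔ c) ∧
      (∀ x ∈ A, ¬ x ≤ u → ¬ r x ≤ x ⊔ c → ∀ y ∈ A, ¬ y ≤ u → ¬ r y ≤ y ⊔ c →
        HR x = HR y → x ⊔ c = y ⊔ c) ∧
      (∀ x y, x ⊔ c = y ⊔ c → HR x = HR y) := by
  classical
  have hrep : ∀ k : L, ∃ x : L, (∃ y ∈ A, ¬ y ≤ u ∧ ¬ r y ≤ y ⊔ c ∧ y ⊔ c = k) →
      x ∈ A ∧ ¬ x ≤ u ∧ ¬ r x ≤ x ⊔ c ∧ x ⊔ c = k := by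
    intro k
    by_cases h : ∃ y ∈ A, ¬ y ≤ u ∧ ¬ r y ≤ y ⊔ c ∧ y ⊔ c = k
    · obtain ⟨y, h1, h2, h3, h4⟩ := h
      exact ⟨y, fun _ => ⟨h1, h2, h3, h4⟩⟩
    · exact ⟨k, fun h' => absurd h' h⟩
  choose ρ hρ using hrep
  set Z : Finset L := A.filter (fun x => ¬ x ≤ u ∧ ¬ r x ≤ x ⊔ c) with hZ
  have hmZ : ∀ x, x ∈ Z ↔ x ∈ A ∧ ¬ x ≤ u ∧ ¬ r x ≤ x ⊔ c := fun x => by simp [hZ]
  set G : Finset L := Z.image (fun x => ρ (x ⊔ c)) with hG
  have hmG : ∀ x ∈ G, x ∈ A ∧ ¬ x ≤ u ∧ ¬ r x ≤ x ⊔ c ∧ ρ (x ⊔ c) = x := by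
    intro x hx
    obtain ⟨y, hy, rfl⟩ := Finset.mem_image.mp hx
    obtain ⟨h1, h2, h3⟩ := (hmZ y).mp hy
    have h4 := hρ (y ⊔ c) ⟨y, h1, h2, h3, rfl⟩
    exact ⟨h4.1, h4.2.1, h4.2.2.1, by rw [h4.2.2.2]⟩
  have hcls : ∀ x ∈ A, ¬ x ≤ u → ∀ s ∈ A, ¬ s ≤ u → x ⊔ u = s ⊔ u → r x = r s := by
    intro x hx hxu s hs hsu e
    exact hrr x hx hxu s hs hsu (e ▸ le_sup_left)
  obtain ⟨H, hH, hHinj⟩ := Pool.Agent.Helper28.Level2.level2 (A := A) (G := G) (r1 := r1)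
    (r2 := r2) (r := r) (u := u) (v := v) (c := c) hA hrA hu hv huv hc hcu hr1 hr2 hr1v hr2v hr12
    (fun x hx => by
      obtain ⟨h1, h2, h3, -⟩ := hmG x hx
      have h5 := hr x h1 h2
      exact ⟨h1, h2, h5.1, h5.2.1, h5.2.2, h3⟩)
    (fun x hx y hy e => hcls x (hmG x hx).1 (hmG x hx).2.1 y (hmG y hy).1 (hmG y hy).2.1 e)
    (fun x hx e => by rw [hcls x (hmG x hx).1 (hmG x hx).2.1 r1 hr1 hr1u e, hrr1])
    (fun x hx e => by rw [hcls x (hmG x hx).1 (hmG x hx).2.1 r2 hr2 hr2u e, hrr2])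
    (fun x hx y hy e => by rw [← (hmG x hx).2.2.2, ← (hmG y hy).2.2.2, e])
    (fun x hx hle => hno x (hmG x hx).1 (hmG x hx).2.1 (hmG x hx).2.2.1 hle)
  have key : ∀ x ∈ A, ¬ x ≤ u → ¬ r x ≤ x ⊔ c → ρ (x ⊔ c) ∈ G ∧ ρ (x ⊔ c) ⊔ c = x ⊔ c := by
    intro x h1 h2 h3
    refine ⟨Finset.mem_image.mpr ⟨x, (hmZ x).mpr ⟨h1, h2, h3⟩, rfl⟩, ?_⟩
    exact (hρ (x ⊔ c) ⟨x, h1, h2, h3, rfl⟩).2.2.2
  refine ⟨fun x => H (ρ (x ⊔ c)), ?_, ?_, ?_⟩
  · intro x h1 h2 h3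
    obtain ⟨h4, h5⟩ := key x h1 h2 h3
    obtain ⟨k1, k2, k3, k4, z, hz, hzH, hzk⟩ := hH _ h4
    rw [h5] at k2 hzk
    exact ⟨k1, k2, k3, k4, z, hz, hzH, hzk⟩
  · intro x h1 h2 h3 y h1' h2' h3' e
    obtain ⟨h4, h5⟩ := key x h1 h2 h3
    obtain ⟨h4', h5'⟩ := key y h1' h2' h3'
    have h6 := hHinj _ h4 _ h4' e
    rw [← h5, h6, h5']
  · intro x y e
    show H (ρ (x ⊔ c)) = H (ρ (y ⊔ c))
    rw [e]

/-- For two planes `H`, `P` through the line `x ⊔ c` of `A`: the number of lines of `P` through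
`x`, other than `x ⊔ c`, which lie in a plane meeting `H` only in `x`, is at most the number of
lines of `H` through `x` minus three. -/
def LocMod [DecidableEq L] [DecidableRel (α := L) (· ≤ ·)] (A : Finset L) : Prop :=
  ∀ H P : L, rk H = 3 → rk P = 3 → H ≠ P → ∀ x ∈ A, ∀ c ∈ A, x ≠ c → x ≤ H → c ≤ H →
    x ≤ P → c ≤ P → (∃ z ∈ A, z ≤ H ∧ ¬ z ≤ x ⊔ c) →
    {k : L | k ∈ pen A x (x ⊔ c) P ∧
      ∃ z ∈ A, rk (k ⊔ z) = 3 ∧ ∀ t ∈ A, t ≤ H → t ≤ k ⊔ z → t = x}.ncard + 2 ≤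
      (pen A x (x ⊔ c) H).card

/-- Rank four data for a set without near pencils which is nearly locally modular. -/
theorem crit4_of_lm [DecidableEq L] [DecidableRel (α := L) (· ≤ ·)] {A : Finset L}
    (hA : ∀ a ∈ A, IsAtom a) (hrA : rk (A.sup id) = 4) (hcore : Core A) (hlm : LocMod A) :
    Crit4 A := by
  classical
  obtain ⟨u, b1, b2, r1, r2, r, hu, hb1, hb2, hb12, hbu, hr1, hr2, h4, hmax, hr, hrr, hrr1, hrr2,
    hrv, hno⟩ := frame_exists hA hrA hcore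
  have hbu1 : b1 ≤ u := hbu ▸ le_sup_left
  have hbu2 : b2 ≤ u := hbu ▸ le_sup_right
  set v := r1 ⊔ r2 with hvdef
  -- more on the frame
  have hr2u' : ¬ r2 ≤ u ⊔ r1 := by
    intro h
    have h1 := rk_sup_atom_le (x := u) (hA r1 hr1)
    rw [sup_eq_left.mpr h] at h4
    omega
  have hr12 : r1 ≠ r2 := fun h => hr2u' (h ▸ le_sup_right)
  have hv : rk v = 2 := rk_line (hA r1 hr1) (hA r2 hr2) hr12
  have huv : rk (u ⊔ v) = 4 := by rw [hvdef, ← sup_assoc]; exact h4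
  have rkP : ∀ q ∈ A, ¬ q ≤ u → rk (q ⊔ u) = 3 := fun q hq hqu => by
    rw [sup_comm, rk_sup_atom (hA q hq) hqu, hu]
  have hr1u : ¬ r1 ≤ u := by
    intro h
    have h1 := rk_sup_atom_le (x := u) (hA r2 hr2)
    rw [sup_eq_left.mpr h] at h4
    omega
  have hr2u : ¬ r2 ≤ u := fun h => hr2u' (h.trans le_sup_left)
  set R : Finset L := A.filter (fun x => ¬ x ≤ u ∧ r x ≠ x) with hRdef
  have hmR : ∀ x, x ∈ R ↔ x ∈ A ∧ ¬ x ≤ u ∧ r x ≠ x := fun x => by simp [hRdef]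
  have hU : 2 ≤ (A.filter (· ≤ u)).card := by
    have h2 : ({b1, b2} : Finset L) ⊆ A.filter (· ≤ u) := by
      intro z hz
      rw [Finset.mem_insert, Finset.mem_singleton] at hz
      rw [Finset.mem_filter]
      rcases hz with rfl | rfl
      · exact ⟨hb1, hbu1⟩
      · exact ⟨hb2, hbu2⟩
    have h3 := Finset.card_le_card h2
    rwa [Finset.card_pair hb12] at h3
  -- level 1
  obtain ⟨cc, hcc, hccinj⟩ := level1 (R := R) (r := r) hA hu hU (fun k hk _ => hmax k hk)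
    (fun x hx => by
      obtain ⟨h1, h2, h3⟩ := (hmR x).mp hx
      exact ⟨h1, h2, hA _ (hr x h1 h2).1, h3⟩)
  -- level 2
  have hl2 : ∀ c, c ∈ A ∧ c ≤ u → ∃ HR : L → L, (∀ x ∈ A, ¬ x ≤ u → ¬ r x ≤ x ⊔ c →
        rk (HR x) = 3 ∧ x ⊔ c ≤ HR x ∧ ¬ u ≤ HR x ∧ HR x ≠ c ⊔ v ∧
        ∃ z ∈ A, z ≤ HR x ∧ ¬ z ≤ x ⊔ c) ∧
      (∀ x ∈ A, ¬ x ≤ u → ¬ r x ≤ x ⊔ c → ∀ y ∈ A, ¬ y ≤ u → ¬ r y ≤ y ⊔ c →
        HR x = HR y → x ⊔ c = y ⊔ c) ∧
      (∀ x y, x ⊔ c = y ⊔ c → HR x = HR y) := fun c hc =>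
    level2_rows hA hrA hu hv huv hc.1 hc.2 hr1 hr2 hr1u hr2u le_sup_left le_sup_right hr12 hr
      hrr hrr1 hrr2 (hno c hc.1 hc.2)
  choose! HH hHH hHHinj hHHc using hl2
  -- two points of `u`
  have two : ∀ a ∈ A, a ≤ u → ∀ a' ∈ A, a' ≤ u → a ≠ a' → ∀ p, a ≤ p → a' ≤ p → u ≤ p := by
    intro a ha hau a' ha' hau' hne p h1 h2
    rw [← line_of (hA a ha) (hA a' ha') hne hau hau' hu]
    exact sup_le h1 h2
  set H : L → L := fun x => HH (cc x) x with hHdef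
  have hccA : ∀ x ∈ R, cc x ∈ A ∧ cc x ≤ u ∧ ¬ r x ≤ x ⊔ cc x := hcc
  have hH : ∀ x ∈ R, rk (H x) = 3 ∧ x ⊔ cc x ≤ H x ∧ ¬ u ≤ H x ∧ H x ≠ cc x ⊔ v ∧
      ∃ z ∈ A, z ≤ H x ∧ ¬ z ≤ x ⊔ cc x := by
    intro x hx
    obtain ⟨h1, h2, -⟩ := (hmR x).mp hx
    obtain ⟨h5, h6, h7⟩ := hccA x hx
    exact hHH (cc x) ⟨h5, h6⟩ x h1 h2 h7
  have hHinj : ∀ x ∈ R, ∀ y ∈ R, cc x = cc y → H x = H y → x = y := by
    intro x hx y hy e1 e2
    obtain ⟨h1, h2, -⟩ := (hmR x).mp hx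
    obtain ⟨h1', h2', -⟩ := (hmR y).mp hy
    obtain ⟨h5, h6, h7⟩ := hccA x hx
    obtain ⟨h5', h6', h7'⟩ := hccA y hy
    have e2' : HH (cc x) x = HH (cc x) y := by
      have : HH (cc y) y = HH (cc x) y := by rw [e1]
      rw [← this]
      exact e2
    have e3 := hHHinj (cc x) ⟨h5, h6⟩ x h1 h2 h7 y h1' h2' (by rw [e1]; exact h7') e2'
    exact hccinj x hx y hy (by rw [← e1]; exact e3)
  -- the shares
  set U : Finset L := A.filter (· ≤ u) with hUdef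
  have hmU : ∀ c, c ∈ U ↔ c ∈ A ∧ c ≤ u := fun c => by simp [hUdef]
  set Γ : L → L → Finset L := fun x g =>
    U.filter (fun c => ¬ r x ≤ x ⊔ c ∧ HH c x = g ⊔ c) with hΓ
  have hmΓ : ∀ x g c, c ∈ Γ x g ↔ c ∈ U ∧ ¬ r x ≤ x ⊔ c ∧ HH c x = g ⊔ c := fun x g c => by
    simp [hΓ]
  set T : L → Finset L := fun x => pen A x (x ⊔ cc x) (H x) with hT
  have hmT : ∀ x g, g ∈ T x ↔ ∃ z ∈ A, z ≤ H x ∧ ¬ z ≤ x ⊔ cc x ∧ x ⊔ z = g := fun x g => mem_pen
  have hspos : (0 : ℚ) < U.card := by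
    have : 2 ≤ U.card := hU
    have h2 : 0 < U.card := by omega
    exact_mod_cast h2
  have hcand : ∀ x ∈ R, ∀ g ∈ T x, rk g = 2 ∧ x ≤ g ∧ g ≤ H x ∧ ¬ cc x ≤ g ∧ g ⊔ cc x = H x := by
    intro x hx g hg
    obtain ⟨z, hz, hzH, hzk, rfl⟩ := (hmT x g).mp hg
    obtain ⟨h1, h2, -⟩ := (hmR x).mp hx
    have hxz : x ≠ z := fun h => hzk (h ▸ le_sup_left)
    have hxA := hA x h1
    have hcA := hA _ (hccA x hx).1
    have h2' : rk (x ⊔ z) = 2 := rk_line hxA (hA z hz) hxz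
    have hxc : x ≠ cc x := fun h => h2 (by rw [h]; exact (hccA x hx).2.1)
    have hn : ¬ cc x ≤ x ⊔ z := by
      intro h
      have h3 : x ⊔ cc x = x ⊔ z := line_of hxA hcA hxc le_sup_left h h2'
      exact hzk (h3 ▸ le_sup_right)
    have hle : x ⊔ z ≤ H x := sup_le (le_sup_left.trans (hH x hx).2.1) hzH
    refine ⟨h2', le_sup_left, hle, hn, ?_⟩
    exact eq_of_le_of_rk (sup_le hle (le_sup_right.trans (hH x hx).2.1))
      (by rw [rk_sup_atom hcA hn, h2', (hH x hx).1])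
  have hload : ∀ g, rk g = 2 → ∀ x ∈ R, ∀ y ∈ R, x ≤ g → y ≤ g → x ≠ y →
      Disjoint (Γ x g) (Γ y g) := by
    intro g hg x hx y hy hxg hyg hxy
    rw [Finset.disjoint_left]
    intro c h1 h2
    obtain ⟨hcU, hcx, e1⟩ := (hmΓ x g c).mp h1
    obtain ⟨-, hcy, e2⟩ := (hmΓ y g c).mp h2
    obtain ⟨hxA, hxu, -⟩ := (hmR x).mp hx
    obtain ⟨hyA, hyu, -⟩ := (hmR y).mp hy
    have e3 := hHHinj c ((hmU c).mp hcU) x hxA hxu hcx y hyA hyu hcy (e1.trans e2.symm)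
    have h5 : x ⊔ y = g := line_of (hA x hxA) (hA y hyA) hxy hxg hyg hg
    have hxc : x ≠ c := fun h => hxu (by rw [h]; exact ((hmU c).mp hcU).2)
    have h6 : x ⊔ y ≤ x ⊔ c := sup_le le_sup_left (e3 ▸ le_sup_left)
    have h7 : g = x ⊔ c := by
      rw [← h5]
      exact eq_of_le_of_rk h6 (by
        rw [rk_line (hA x hxA) (hA y hyA) hxy, rk_line (hA x hxA) (hA c ((hmU c).mp hcU).1) hxc])
    have h8 := (hHH c ((hmU c).mp hcU) x hxA hxu hcx).1
    rw [e1, h7, sup_assoc, sup_idem, rk_line (hA x hxA) (hA c ((hmU c).mp hcU).1) hxc] at h8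
    omega
  have hdemand : ∀ x ∈ R, U.card ≤ ∑ g ∈ T x, (Γ x g).card := by
    intro x hx
    obtain ⟨hxA, hxu, hxr⟩ := (hmR x).mp hx
    obtain ⟨hcA, hcu, hcr⟩ := hccA x hx
    obtain ⟨hH1, hH2, hH3, hH4, hH5⟩ := hH x hx
    have hxc : x ≠ cc x := fun h => hxu (by rw [h]; exact hcu)
    set c := cc x with hcdef
    set k := x ⊔ c with hkdef
    set bad : Finset L := (pen A x k (x ⊔ u)).filter (fun k' =>
      ∃ z ∈ A, rk (k' ⊔ z) = 3 ∧ ∀ t ∈ A, t ≤ H x → t ≤ k' ⊔ z → t = x) with hbad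
    have hb : bad.card + 2 ≤ (T x).card := by
      have h1 := hlm (H x) (x ⊔ u) hH1 (rkP x hxA hxu) (fun e => hH3 (e ▸ le_sup_right)) x hxA c
        hcA hxc (le_sup_left.trans hH2) (le_sup_right.trans hH2) le_sup_left
        (hcu.trans le_sup_right) hH5
      have h2 : {k' : L | k' ∈ pen A x (x ⊔ c) (x ⊔ u) ∧
          ∃ z ∈ A, rk (k' ⊔ z) = 3 ∧ ∀ t ∈ A, t ≤ H x → t ≤ k' ⊔ z → t = x} =
          ((bad : Finset L) : Set L) := by
        ext k'
        simp only [hbad, Set.mem_ofPred_eq, Finset.coe_filter, hkdef]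
      rw [h2, Set.ncard_coe_finset] at h1
      exact h1
    -- the pairs
    have hsum : ∑ g ∈ T x, (Γ x g).card = ((T x).sigma (fun g => Γ x g)).card := by
      rw [Finset.card_sigma]
    rw [hsum]
    -- colours other than `c` which are not bad
    set V : Finset L := (U.erase c).filter (fun c' => ¬ r x ≤ x ⊔ c' ∧ x ⊔ c' ∉ bad) with hV
    have hVcard : U.card ≤ V.card + 2 + bad.card := by
      have h1 : U ⊆ insert c (V ∪ ((U.erase c).filter (fun c' => r x ≤ x ⊔ c')) ∪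
          ((U.erase c).filter (fun c' => x ⊔ c' ∈ bad))) := by
        intro c' hc'
        by_cases e : c' = c
        · rw [e]
          exact Finset.mem_insert_self _ _
        · apply Finset.mem_insert_of_mem
          have h2 : c' ∈ U.erase c := Finset.mem_erase.mpr ⟨e, hc'⟩
          rw [Finset.mem_union, Finset.mem_union]
          by_cases h3 : r x ≤ x ⊔ c'
          · exact Or.inl (Or.inr (Finset.mem_filter.mpr ⟨h2, h3⟩))
          · by_cases h4 : x ⊔ c' ∈ bad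
            · exact Or.inr (Finset.mem_filter.mpr ⟨h2, h4⟩)
            · exact Or.inl (Or.inl (Finset.mem_filter.mpr ⟨h2, h3, h4⟩))
      have h2 : ((U.erase c).filter (fun c' => r x ≤ x ⊔ c')).card ≤ 1 := by
        rw [Finset.card_le_one]
        intro a ha a' ha'
        rw [Finset.mem_filter, Finset.mem_erase, hmU] at ha ha'
        by_contra hne
        have hrA := hr x hxA hxu
        have e1 : x ⊔ r x = x ⊔ a := line_of (hA x hxA) (hA _ hrA.1) hxr.symm le_sup_left ha.2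
          (rk_line (hA x hxA) (hA a ha.1.2.1) (fun e => hxu (e ▸ ha.1.2.2)))
        have e2 : x ⊔ r x = x ⊔ a' := line_of (hA x hxA) (hA _ hrA.1) hxr.symm le_sup_left ha'.2
          (rk_line (hA x hxA) (hA a' ha'.1.2.1) (fun e => hxu (e ▸ ha'.1.2.2)))
        have h3 : u ≤ x ⊔ a := two a ha.1.2.1 ha.1.2.2 a' ha'.1.2.1 ha'.1.2.2 hne _ le_sup_right
          (by rw [← e1, e2]; exact le_sup_right)
        have h4 : u = x ⊔ a := eq_of_le_of_rk h3 (by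
          rw [hu, rk_line (hA x hxA) (hA a ha.1.2.1) (fun e => hxu (e ▸ ha.1.2.2))])
        exact hxu (by rw [h4]; exact le_sup_left)
      have h3 : ((U.erase c).filter (fun c' => x ⊔ c' ∈ bad)).card ≤ bad.card := by
        apply Finset.card_le_card_of_injOn (fun c' => x ⊔ c')
        · intro c' hc'
          exact (Finset.mem_filter.mp hc').2
        · intro a ha a' ha' e
          rw [Finset.mem_coe, Finset.mem_filter, Finset.mem_erase, hmU] at ha ha'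
          by_contra hne
          have e' : x ⊔ a = x ⊔ a' := e
          have h3 : u ≤ x ⊔ a := two a ha.1.2.1 ha.1.2.2 a' ha'.1.2.1 ha'.1.2.2 hne _ le_sup_right
            (by rw [e']; exact le_sup_right)
          have h4 : u = x ⊔ a := eq_of_le_of_rk h3 (by
            rw [hu, rk_line (hA x hxA) (hA a ha.1.2.1) (fun e => hxu (e ▸ ha.1.2.2))])
          exact hxu (by rw [h4]; exact le_sup_left)
      have h4 := Finset.card_le_card h1
      have h5 := Finset.card_insert_le c (V ∪ ((U.erase c).filter (fun c' => r x ≤ x ⊔ c')) ∪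
          ((U.erase c).filter (fun c' => x ⊔ c' ∈ bad)))
      have h6 := Finset.card_union_le (V ∪ ((U.erase c).filter (fun c' => r x ≤ x ⊔ c')))
          ((U.erase c).filter (fun c' => x ⊔ c' ∈ bad))
      have h7 := Finset.card_union_le V ((U.erase c).filter (fun c' => r x ≤ x ⊔ c'))
      omega
    -- every such colour has a line
    have hline : ∀ c' ∈ V, ∃ g ∈ T x, c' ∈ Γ x g := by
      intro c' hc'
      rw [hV, Finset.mem_filter, Finset.mem_erase, hmU] at hc'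
      obtain ⟨⟨hne, hc'A, hc'u⟩, hc'r, hnb⟩ := hc'
      obtain ⟨k1, k2, k3, k4, z, hz, hzH, hzk⟩ := hHH c' ⟨hc'A, hc'u⟩ x hxA hxu hc'r
      have hxc' : x ≠ c' := fun h => hxu (by rw [h]; exact hc'u)
      have hkz : x ⊔ c' ⊔ z = HH c' x := eq_of_le_of_rk (sup_le k2 hzH) (by
        rw [rk_sup_atom (hA z hz) hzk, rk_line (hA x hxA) (hA c' hc'A) hxc', k1])
      have hc'k : ¬ c' ≤ k := by
        intro h
        have h1 := two c' hc'A hc'u c hcA hcu hne _ h le_sup_right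
        exact hH3 (h1.trans hH2)
      have hpen : x ⊔ c' ∈ pen A x k (x ⊔ u) := mem_pen.mpr
        ⟨c', hc'A, hc'u.trans le_sup_right, hc'k, rfl⟩
      have h1 : ¬ ∀ t ∈ A, t ≤ H x → t ≤ x ⊔ c' ⊔ z → t = x := by
        intro h
        apply hnb
        rw [hbad, Finset.mem_filter]
        exact ⟨hpen, z, hz, by rw [hkz, k1], h⟩
      push Not at h1
      obtain ⟨t, ht, htH, htz, htx⟩ := h1
      rw [hkz] at htz
      have htk : ¬ t ≤ k := by
        intro h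
        have h2 : x ⊔ t = x ⊔ c := line_of (hA x hxA) (hA t ht) (Ne.symm htx) le_sup_left h
          (rk_line (hA x hxA) (hA c hcA) hxc)
        have h3 : c ≤ HH c' x := by
          have h4 : c ≤ x ⊔ t := by rw [h2]; exact le_sup_right
          exact h4.trans (sup_le (le_sup_left.trans k2) htz)
        exact k3 (two c' hc'A hc'u c hcA hcu hne _ (le_sup_right.trans k2) h3)
      refine ⟨x ⊔ t, (hmT x _).mpr ⟨t, ht, htH, htk, rfl⟩, (hmΓ x _ c').mpr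
        ⟨(hmU c').mpr ⟨hc'A, hc'u⟩, hc'r, ?_⟩⟩
      have hn : ¬ c' ≤ x ⊔ t := by
        intro h
        have h3 : c' ≤ H x := h.trans (sup_le (le_sup_left.trans hH2) htH)
        exact hH3 (two c' hc'A hc'u c hcA hcu hne _ h3 (le_sup_right.trans hH2))
      exact (eq_of_le_of_rk (sup_le (sup_le (le_sup_left.trans k2) htz) (le_sup_right.trans k2))
        (by rw [rk_sup_atom (hA c' hc'A) hn, rk_line (hA x hxA) (hA t ht) (Ne.symm htx), k1])).symm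
    choose! gl hgl hglΓ using hline
    -- the injection
    have hcΓ : ∀ g ∈ T x, c ∈ Γ x g := by
      intro g hg
      refine (hmΓ x g c).mpr ⟨(hmU c).mpr ⟨hcA, hcu⟩, hcr, ?_⟩
      exact (hcand x hx g hg).2.2.2.2.symm
    set S1 : Finset (Σ _ : L, L) := (T x).image (fun g => ⟨g, c⟩) with hS1
    set S2 : Finset (Σ _ : L, L) := V.image (fun c' => ⟨gl c', c'⟩) with hS2
    have hS1c : S1.card = (T x).card := Finset.card_image_of_injective _ (fun a b e => by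
      have := congrArg Sigma.fst e
      exact this)
    have hS2c : S2.card = V.card := Finset.card_image_of_injective _ (fun a b e => by
      have := (Sigma.mk.inj_iff.mp e).2
      exact eq_of_heq this)
    have hdisj : Disjoint S1 S2 := by
      rw [Finset.disjoint_left]
      intro p hp1 hp2
      obtain ⟨g, -, e1⟩ := Finset.mem_image.mp hp1
      obtain ⟨c', hc', e2⟩ := Finset.mem_image.mp hp2
      have e3 := (Sigma.mk.inj_iff.mp (e1.trans e2.symm)).2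
      have e4 : c = c' := eq_of_heq e3
      rw [hV, Finset.mem_filter, Finset.mem_erase] at hc'
      exact hc'.1.1 e4.symm
    have hsub : S1 ∪ S2 ⊆ (T x).sigma (fun g => Γ x g) := by
      intro p hp
      rw [Finset.mem_sigma]
      rcases Finset.mem_union.mp hp with h | h
      · obtain ⟨g, hg, rfl⟩ := Finset.mem_image.mp h
        exact ⟨hg, hcΓ g hg⟩
      · obtain ⟨c', hc', rfl⟩ := Finset.mem_image.mp h
        exact ⟨hgl c' hc', hglΓ c' hc'⟩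
    have h9 := Finset.card_le_card hsub
    rw [Finset.card_union_of_disjoint hdisj, hS1c, hS2c] at h9
    omega
  -- level 3
  obtain ⟨F, hFinj, hF⟩ := hall_shares (X := R) (Y := L) (fun x => T x.1)
    (fun x g => ((Γ x.1 g).card : ℚ) / U.card)
    (fun x g => div_nonneg (Nat.cast_nonneg _) (Nat.cast_nonneg _))
    (fun x => by
      rw [← Finset.sum_div, le_div_iff₀ hspos, one_mul]
      have h1 := hdemand x.1 x.2
      exact_mod_cast h1)
    (fun g => by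
      rw [← Finset.sum_div, div_le_iff₀ hspos, one_mul]
      set S := Finset.univ.filter (fun x : R => g ∈ T x.1) with hS
      by_cases hne : S.Nonempty
      · obtain ⟨x0, hx0⟩ := hne
        have hg : rk g = 2 := (hcand x0.1 x0.2 g (Finset.mem_filter.mp hx0).2).1
        have h1 : (S.biUnion (fun x => Γ x.1 g)).card = ∑ x ∈ S, (Γ x.1 g).card := by
          apply Finset.card_biUnion
          intro x hx y hy hxy
          exact hload g hg x.1 x.2 y.1 y.2 (hcand x.1 x.2 g (Finset.mem_filter.mp hx).2).2.1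
            (hcand y.1 y.2 g (Finset.mem_filter.mp hy).2).2.1 (fun e => hxy (Subtype.ext e))
        have h2 : (S.biUnion (fun x => Γ x.1 g)).card ≤ U.card := by
          apply Finset.card_le_card
          intro c hc
          obtain ⟨x, -, hxc⟩ := Finset.mem_biUnion.mp hc
          exact ((hmΓ x.1 g c).mp hxc).1
        rw [h1] at h2
        exact_mod_cast h2
      · rw [Finset.not_nonempty_iff_eq_empty] at hne
        rw [hne]
        simp)
  have hz : ∀ x ∈ R, ∃ z ∈ A, z ≤ H x ∧ ¬ z ≤ x ⊔ cc x ∧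
      x ⊔ z = (if hx : x ∈ R then F ⟨x, hx⟩ else x) := by
    intro x hx
    have h1 := hF ⟨x, hx⟩
    rw [dif_pos hx]
    exact (hmT x _).mp h1
  choose! gg hgA hgH hgk hgF using hz
  have hgginj : ∀ x ∈ R, ∀ y ∈ R, x ⊔ gg x = y ⊔ gg y → x = y := by
    intro x hx y hy e
    rw [hgF x hx, hgF y hy, dif_pos hx, dif_pos hy] at e
    exact congrArg Subtype.val (hFinj e)
  -- assembly
  have hR' : ∀ x ∈ A, ¬ x ≤ u → r x ≠ x → x ∈ R := fun x h1 h2 h3 => (hmR x).mpr ⟨h1, h2, h3⟩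
  refine crit4_of_levels (u := u) (b1 := b1) (b2 := b2) (r1 := r1) (r2 := r2) (r := r) (cc := cc)
    (gg := gg) (H := H) hA hu hb1 hb2 hbu hr1 hr2 h4 hrr hrr1 hrr2 hrv ?_ ?_ ?_ ?_ ?_ ?_
  · intro x h1 h2 h3
    exact hcc x (hR' x h1 h2 h3)
  · intro x h1 h2 h3 y h1' h2' h3' e
    exact hccinj x (hR' x h1 h2 h3) y (hR' y h1' h2' h3') e
  · intro x h1 h2 h3
    obtain ⟨k1, k2, k3, k4, -⟩ := hH x (hR' x h1 h2 h3)
    exact ⟨k1, k2, k3, k4⟩
  · intro x h1 h2 h3 y h1' h2' h3' e1 e2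
    exact hHinj x (hR' x h1 h2 h3) y (hR' y h1' h2' h3') e1 e2
  · intro x h1 h2 h3
    have hx := hR' x h1 h2 h3
    exact ⟨hgA x hx, hgH x hx, hgk x hx⟩
  · intro x h1 h2 h3 y h1' h2' h3' e
    exact hgginj x (hR' x h1 h2 h3) y (hR' y h1' h2' h3') e

end Pool.Agent.Helper38.Thick
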