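import Pool.Agent.Helper61.Motz.Peel

/-!
# Level 1: different lines through the points of a longest line
-/

set_option autoImplicit false
set_option linter.unusedSectionVars false

namespace Pool.Agent.Helper38.Thick

open Pool.Agent.Helper28.BPack Pool.Agent.Helper61.Motz

variable {L : Type} [Lattice L] [BoundedOrder L] [Finite L] [IsUpperModularLattice L]

/-- A line through two different points. -/
theorem line_of {x y k : L} (hx : IsAtom x) (hy : IsAtom y) (h : x ≠ y) (hxk : x ≤ k)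
    (hyk : y ≤ k) (hk : rk k = 2) : x ⊔ y = k := line_eq hx hy h hxk hyk hk

/-- Two lines with two common points. -/
theorem line_two {x y k l : L} (hx : IsAtom x) (hy : IsAtom y) (h : x ≠ y) (hxk : x ≤ k)
    (hyk : y ≤ k) (hk : rk k = 2) (hxl : x ≤ l) (hyl : y ≤ l) (hl : rk l = 2) : k = l :=
  (line_of hx hy h hxk hyk hk).symm.trans (line_of hx hy h hxl hyl hl)

/-- LEVEL 1.  Different lines `x ⊔ c x` through points `c x` of `u`. -/
theorem level1 {A R : Finset L} {u : L} {r : L → L} [DecidableEq L]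
    [DecidableRel (α := L) (· ≤ ·)]
    (hA : ∀ a ∈ A, IsAtom a) (hu : rk u = 2) (hU : 2 ≤ (A.filter (· ≤ u)).card)
    (hmax : ∀ k, rk k = 2 → (∃ c ∈ A, c ≤ u ∧ c ≤ k) →
      (A.filter (· ≤ k)).card ≤ (A.filter (· ≤ u)).card)
    (hR : ∀ x ∈ R, x ∈ A ∧ ¬ x ≤ u ∧ IsAtom (r x) ∧ r x ≠ x) :
    ∃ c : L → L, (∀ x ∈ R, c x ∈ A ∧ c x ≤ u ∧ ¬ r x ≤ x ⊔ c x) ∧
      (∀ x ∈ R, ∀ y ∈ R, x ⊔ c x = y ⊔ c y → x = y) := by
  set U := A.filter (· ≤ u) with hUdef
  have hmU : ∀ c, c ∈ U ↔ c ∈ A ∧ c ≤ u := fun c => by simp [hUdef]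
  -- candidate lines
  set t : L → Finset L := fun x => (U.image (fun c => x ⊔ c)).filter (fun k => ¬ r x ≤ k) with ht
  have hmt : ∀ x k, k ∈ t x ↔ (∃ c ∈ U, x ⊔ c = k) ∧ ¬ r x ≤ k := fun x k => by
    simp only [ht, Finset.mem_filter, Finset.mem_image]
  have hne : ∀ x ∈ R, ∀ c ∈ U, x ≠ c := by
    rintro x hx c hc rfl
    exact (hR x hx).2.1 ((hmU x).mp hc).2
  have hrk : ∀ x ∈ R, ∀ c ∈ U, rk (x ⊔ c) = 2 := fun x hx c hc =>
    rk_line (hA x (hR x hx).1) (hA c ((hmU c).mp hc).1) (hne x hx c hc)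
  have hinj : ∀ x ∈ R, Set.InjOn (fun c => x ⊔ c) (U : Set L) := by
    intro x hx c hc c' hc' e
    by_contra hcc
    have hcU := (hmU c).mp hc
    have hcU' := (hmU c').mp hc'
    have h1 := line_two (hA c hcU.1) (hA c' hcU'.1) hcc (le_sup_right : c ≤ x ⊔ c)
      (by change c' ≤ (fun c => x ⊔ c) c; rw [e]; exact le_sup_right) (hrk x hx c hc)
      hcU.2 hcU'.2 hu
    exact (hR x hx).2.1 (h1 ▸ le_sup_left)
  have hdeg : ∀ x ∈ R, U.card - 1 ≤ (t x).card := by
    intro x hx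
    have h1 : (U.image (fun c => x ⊔ c)).card = U.card := Finset.card_image_of_injOn (hinj x hx)
    have h2 : ((U.image (fun c => x ⊔ c)).filter (fun k => r x ≤ k)).card ≤ 1 := by
      rw [Finset.card_le_one]
      intro k hk l hl
      rw [Finset.mem_filter, Finset.mem_image] at hk hl
      obtain ⟨⟨c, hc, hck⟩, hrk1⟩ := hk
      obtain ⟨⟨c', hc', hcl⟩, hrl1⟩ := hl
      have hrx := (hR x hx).2.2
      have e1 := line_of (hA x (hR x hx).1) hrx.1 hrx.2.symm (hck ▸ le_sup_left : x ≤ k) hrk1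
        (hck ▸ hrk x hx c hc)
      have e2 := line_of (hA x (hR x hx).1) hrx.1 hrx.2.symm (hcl ▸ le_sup_left : x ≤ l) hrl1
        (hcl ▸ hrk x hx c' hc')
      exact e1.symm.trans e2
    have h3 := Finset.card_filter_add_card_filter_not (s := U.image (fun c => x ⊔ c))
      (fun k => r x ≤ k)
    have h4 : (t x).card = ((U.image (fun c => x ⊔ c)).filter (fun k => ¬ r x ≤ k)).card := rfl
    omega
  have hcod : ∀ k, ∀ S ⊆ R, (S.filter (fun x => k ∈ t x)).card ≤ U.card - 1 := by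
    intro k S hS
    rcases (S.filter (fun x => k ∈ t x)).eq_empty_or_nonempty with h0 | ⟨x0, hx0⟩
    · rw [h0, Finset.card_empty]
      exact Nat.zero_le _
    · rw [Finset.mem_filter, hmt] at hx0
      obtain ⟨hx0S, ⟨c0, hc0, hk0⟩, -⟩ := hx0
      have hx0R := hS hx0S
      have hc0' := (hmU c0).mp hc0
      have hk2 : rk k = 2 := hk0 ▸ hrk x0 hx0R c0 hc0
      have hc0k : c0 ≤ k := hk0 ▸ le_sup_right
      have h1 := hmax k hk2 ⟨c0, hc0'.1, hc0'.2, hc0k⟩
      have hsub : insert c0 (S.filter (fun x => k ∈ t x)) ⊆ A.filter (· ≤ k) := by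
        intro z hz
        rw [Finset.mem_insert, Finset.mem_filter, hmt] at hz
        rw [Finset.mem_filter]
        rcases hz with rfl | ⟨hz1, ⟨c, hc, hzk⟩, -⟩
        · exact ⟨hc0'.1, hc0k⟩
        · exact ⟨(hR z (hS hz1)).1, hzk ▸ le_sup_left⟩
      have hnot : c0 ∉ S.filter (fun x => k ∈ t x) := by
        intro h
        rw [Finset.mem_filter] at h
        exact (hR c0 (hS h.1)).2.1 hc0'.2
      have h2 := Finset.card_le_card hsub
      rw [Finset.card_insert_of_notMem hnot] at h2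
      omega
  -- Hall
  have hall : ∀ S : Finset {x // x ∈ R}, S.card ≤ (S.biUnion (fun x => t x.1)).card := by
    intro S
    set S' : Finset L := S.map (Function.Embedding.subtype _) with hS'
    have hc : S.card = S'.card := by rw [hS', Finset.card_map]
    have hS'R : S' ⊆ R := by
      intro x hx
      rw [hS', Finset.mem_map] at hx
      obtain ⟨y, -, rfl⟩ := hx
      exact y.2
    have hmS' : ∀ x, x ∈ S' → ∃ y ∈ S, y.1 = x := by
      intro x hx
      rw [hS', Finset.mem_map] at hx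
      obtain ⟨y, hy, rfl⟩ := hx
      exact ⟨y, hy, rfl⟩
    have h := Finset.card_mul_le_card_mul (s := S') (t := S.biUnion (fun x => t x.1))
      (fun x k => k ∈ t x) (m := U.card - 1) (n := U.card - 1) ?_ ?_
    · rw [hc]
      exact Nat.le_of_mul_le_mul_right h (by omega)
    · intro x hx
      obtain ⟨y, hy, rfl⟩ := hmS' x hx
      refine (hdeg y.1 y.2).trans (Finset.card_le_card ?_)
      intro k hk
      rw [Finset.mem_bipartiteAbove]
      exact ⟨Finset.mem_biUnion.mpr ⟨y, hy, hk⟩, hk⟩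
    · intro k _
      exact hcod k S' hS'R
  obtain ⟨f, hf, hft⟩ := (Finset.all_card_le_biUnion_card_iff_exists_injective _).mp hall
  have hex : ∀ x : {x // x ∈ R}, ∃ c ∈ U, x.1 ⊔ c = f x := fun x => ((hmt _ _).mp (hft x)).1
  choose g hgU hgf using hex
  refine ⟨fun x => if h : x ∈ R then g ⟨x, h⟩ else x, ?_, ?_⟩
  · intro x hx
    simp only [hx, dite_true]
    have h1 := (hmU _).mp (hgU ⟨x, hx⟩)
    refine ⟨h1.1, h1.2, ?_⟩
    have h2 := ((hmt _ _).mp (hft ⟨x, hx⟩)).2
    rw [← hgf ⟨x, hx⟩] at h2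
    exact h2
  · intro x hx y hy e
    simp only [hx, hy, dite_true] at e
    have h1 : f ⟨x, hx⟩ = f ⟨y, hy⟩ := by
      rw [← hgf ⟨x, hx⟩, ← hgf ⟨y, hy⟩]
      exact e
    exact congrArg Subtype.val (hf h1)

end Pool.Agent.Helper38.Thick
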